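import Mathlib

/-!
Auxiliary linear arithmetic for the three-dimensional covering body of
`Pool.Agent.Results.MP_4f7bfc_co`.  Machine generated case distinctions, checked by `linarith`.
-/

namespace Pool.Agent.CoveringBody

/-- The 25 facet inequalities of the polytope. -/
def inK (x y z : ℝ) : Prop :=
  ((-139) * x + (-3) * y + 80 * z ≤ 10) ∧
  ((-63) * x + 51 * y + (-32) * z ≤ (-4)) ∧
  ((-35) * x + 3 * y + 16 * z ≤ 2) ∧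
  ((-21) * x + (-21) * y + 16 * z ≤ 2) ∧
  ((-21) * x + (-3) * y + 80 * z ≤ 69) ∧
  ((-15) * x + (-111) * y + (-80) * z ≤ (-10)) ∧
  ((-9) * x + 15 * y + (-8) * z ≤ 5) ∧
  ((-3) * x + (-3) * y + (-16) * z ≤ (-2)) ∧
  ((-3) * x + (-3) * y + 8 * z ≤ 6) ∧
  ((-3) * x + 3 * y + (-2) * z ≤ 0) ∧
  ((-3) * x + 15 * y + (-16) * z ≤ 10) ∧
  ((-3) * x + 75 * y + (-16) * z ≤ 70) ∧
  (0 * x + 0 * y + (-1) * z ≤ 0) ∧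
  (3 * x + (-6) * y + (-8) * z ≤ 2) ∧
  (3 * x + (-3) * y + (-4) * z ≤ 3) ∧
  (3 * x + 3 * y + (-8) * z ≤ 8) ∧
  (3 * x + 3 * y + 16 * z ≤ 21) ∧
  (3 * x + 69 * y + (-8) * z ≤ 74) ∧
  (15 * x + (-33) * y + (-40) * z ≤ 10) ∧
  (15 * x + (-3) * y + 80 * z ≤ 105) ∧
  (21 * x + 21 * y + 32 * z ≤ 67) ∧
  (23 * x + 3 * y + 16 * z ≤ 51) ∧
  (27 * x + (-51) * y + (-64) * z ≤ 19) ∧
  (27 * x + (-15) * y + (-16) * z ≤ 37) ∧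
  (151 * x + (-3) * y + 80 * z ≤ 309)

/-- The 25 strict facet inequalities of the polytope. -/
def inKs (x y z : ℝ) : Prop :=
  ((-139) * x + (-3) * y + 80 * z < 10) ∧
  ((-63) * x + 51 * y + (-32) * z < (-4)) ∧
  ((-35) * x + 3 * y + 16 * z < 2) ∧
  ((-21) * x + (-21) * y + 16 * z < 2) ∧
  ((-21) * x + (-3) * y + 80 * z < 69) ∧
  ((-15) * x + (-111) * y + (-80) * z < (-10)) ∧
  ((-9) * x + 15 * y + (-8) * z < 5) ∧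
  ((-3) * x + (-3) * y + (-16) * z < (-2)) ∧
  ((-3) * x + (-3) * y + 8 * z < 6) ∧
  ((-3) * x + 3 * y + (-2) * z < 0) ∧
  ((-3) * x + 15 * y + (-16) * z < 10) ∧
  ((-3) * x + 75 * y + (-16) * z < 70) ∧
  (0 * x + 0 * y + (-1) * z < 0) ∧
  (3 * x + (-6) * y + (-8) * z < 2) ∧
  (3 * x + (-3) * y + (-4) * z < 3) ∧
  (3 * x + 3 * y + (-8) * z < 8) ∧
  (3 * x + 3 * y + 16 * z < 21) ∧
  (3 * x + 69 * y + (-8) * z < 74) ∧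
  (15 * x + (-33) * y + (-40) * z < 10) ∧
  (15 * x + (-3) * y + 80 * z < 105) ∧
  (21 * x + 21 * y + 32 * z < 67) ∧
  (23 * x + 3 * y + 16 * z < 51) ∧
  (27 * x + (-51) * y + (-64) * z < 19) ∧
  (27 * x + (-15) * y + (-16) * z < 37) ∧
  (151 * x + (-3) * y + 80 * z < 309)

lemma inK_box {x y z : ℝ} (h : inK x y z) :
    (0 ≤ x ∧ x ≤ 2) ∧ ((-5 / 6) ≤ y ∧ y ≤ (7 / 6)) ∧ (0 ≤ z ∧ z ≤ (9 / 8)) := by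
  obtain ⟨g1, g2, g3, g4, g5, g6, g7, g8, g9, g10, g11, g12, g13, g14, g15, g16, g17, g18, g19, g20, g21, g22, g23, g24, g25⟩ := h
  refine ⟨⟨?_, ?_⟩, ⟨?_, ?_⟩, ⟨?_, ?_⟩⟩ <;> linarith

lemma cov_leaf_0 (x y z : ℝ)
    (a0 : 0 ≤ x)
    (a1 : y ≤ 1)
    (a2 : 0 ≤ y)
    (a3 : z ≤ 1)
    (a4 : 0 ≤ z)
    (a5 : 3 * x + (-3) * y + (-4) * z ≤ 0)
    (a6 : 3 * x + (-6) * y + (-8) * z ≤ (-1))
    (a7 : 3 * x + 3 * y + (-8) * z ≤ 5)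
    (a8 : 23 * x + 3 * y + 16 * z ≤ 28)
    (a9 : 21 * x + 21 * y + 32 * z ≤ 46)
    (a10 : 27 * x + (-15) * y + (-16) * z ≤ 10)
    (a11 : (-3) * x + 15 * y + (-16) * z ≤ 13)
    (a12 : 27 * x + (-51) * y + (-64) * z ≤ (-8))
    (a13 : 151 * x + (-3) * y + 80 * z ≤ 158)
    : inK (x - ((-1 : ℤ) : ℝ)) (y - ((0 : ℤ) : ℝ)) (z - ((0 : ℤ) : ℝ)) := by
  unfold inK
  push_cast
  refine ⟨?_, ?_, ?_, ?_, ?_, ?_, ?_, ?_, ?_, ?_, ?_, ?_, ?_, ?_, ?_, ?_, ?_, ?_, ?_, ?_, ?_, ?_, ?_, ?_, ?_⟩ <;> linarith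

lemma cov_leaf_1 (x y z : ℝ)
    (a0 : 0 ≤ y)
    (a1 : 23 * x + 3 * y + 16 * z ≤ 28)
    (a2 : 27 * x + (-15) * y + (-16) * z ≤ 10)
    (a3 : 158 ≤ 151 * x + (-3) * y + 80 * z)
    (a4 : (-21) * x + (-21) * y + 16 * z ≤ 2)
    : inK (x - ((0 : ℤ) : ℝ)) (y - ((0 : ℤ) : ℝ)) (z - ((0 : ℤ) : ℝ)) := by
  unfold inK
  push_cast
  refine ⟨?_, ?_, ?_, ?_, ?_, ?_, ?_, ?_, ?_, ?_, ?_, ?_, ?_, ?_, ?_, ?_, ?_, ?_, ?_, ?_, ?_, ?_, ?_, ?_, ?_⟩ <;> linarith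

lemma cov_leaf_2 (x y z : ℝ)
    (a0 : 0 ≤ y)
    (a1 : 23 * x + 3 * y + 16 * z ≤ 28)
    (a2 : 158 ≤ 151 * x + (-3) * y + 80 * z)
    (a3 : (-3) * x + (-3) * y + 8 * z ≤ 6)
    (a4 : 2 ≤ (-21) * x + (-21) * y + 16 * z)
    : inK (x - ((0 : ℤ) : ℝ)) (y - ((-1 : ℤ) : ℝ)) (z - ((0 : ℤ) : ℝ)) := by
  unfold inK
  push_cast
  refine ⟨?_, ?_, ?_, ?_, ?_, ?_, ?_, ?_, ?_, ?_, ?_, ?_, ?_, ?_, ?_, ?_, ?_, ?_, ?_, ?_, ?_, ?_, ?_, ?_, ?_⟩ <;> linarith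

lemma cov_leaf_3 (x y z : ℝ)
    (a0 : 0 ≤ y)
    (a1 : z ≤ 1)
    (a2 : 23 * x + 3 * y + 16 * z ≤ 28)
    (a3 : 158 ≤ 151 * x + (-3) * y + 80 * z)
    (a4 : 6 ≤ (-3) * x + (-3) * y + 8 * z)
    : inK (x - ((0 : ℤ) : ℝ)) (y - ((-1 : ℤ) : ℝ)) (z - ((0 : ℤ) : ℝ)) := by
  unfold inK
  push_cast
  refine ⟨?_, ?_, ?_, ?_, ?_, ?_, ?_, ?_, ?_, ?_, ?_, ?_, ?_, ?_, ?_, ?_, ?_, ?_, ?_, ?_, ?_, ?_, ?_, ?_, ?_⟩ <;> linarith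

lemma cov_leaf_4 (x y z : ℝ)
    (a0 : 0 ≤ y)
    (a1 : 3 * x + (-3) * y + (-4) * z ≤ 0)
    (a2 : 3 * x + (-6) * y + (-8) * z ≤ (-1))
    (a3 : (-8) ≤ 27 * x + (-51) * y + (-64) * z)
    : inK (x - ((0 : ℤ) : ℝ)) (y - ((0 : ℤ) : ℝ)) (z - ((0 : ℤ) : ℝ)) := by
  unfold inK
  push_cast
  refine ⟨?_, ?_, ?_, ?_, ?_, ?_, ?_, ?_, ?_, ?_, ?_, ?_, ?_, ?_, ?_, ?_, ?_, ?_, ?_, ?_, ?_, ?_, ?_, ?_, ?_⟩ <;> linarith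

lemma cov_leaf_5 (x y z : ℝ)
    (a0 : 0 ≤ x)
    (a1 : y ≤ 1)
    (a2 : 0 ≤ z)
    (a3 : (-9) * x + 15 * y + (-8) * z ≤ 14)
    (a4 : 13 ≤ (-3) * x + 15 * y + (-16) * z)
    (a5 : 151 * x + (-3) * y + 80 * z ≤ 75)
    : inK (x - ((-1 : ℤ) : ℝ)) (y - ((1 : ℤ) : ℝ)) (z - ((-1 : ℤ) : ℝ)) := by
  unfold inK
  push_cast
  refine ⟨?_, ?_, ?_, ?_, ?_, ?_, ?_, ?_, ?_, ?_, ?_, ?_, ?_, ?_, ?_, ?_, ?_, ?_, ?_, ?_, ?_, ?_, ?_, ?_, ?_⟩ <;> linarith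

lemma cov_leaf_6 (x y z : ℝ)
    (a0 : y ≤ 1)
    (a1 : 0 ≤ z)
    (a2 : 13 ≤ (-3) * x + 15 * y + (-16) * z)
    (a3 : 23 * x + 3 * y + 16 * z ≤ 15)
    (a4 : 75 ≤ 151 * x + (-3) * y + 80 * z)
    : inK (x - ((0 : ℤ) : ℝ)) (y - ((0 : ℤ) : ℝ)) (z - ((-1 : ℤ) : ℝ)) := by
  unfold inK
  push_cast
  refine ⟨?_, ?_, ?_, ?_, ?_, ?_, ?_, ?_, ?_, ?_, ?_, ?_, ?_, ?_, ?_, ?_, ?_, ?_, ?_, ?_, ?_, ?_, ?_, ?_, ?_⟩ <;> linarith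

lemma cov_leaf_7 (x y z : ℝ)
    (a0 : y ≤ 1)
    (a1 : 0 ≤ z)
    (a2 : 13 ≤ (-3) * x + 15 * y + (-16) * z)
    (a3 : 15 ≤ 23 * x + 3 * y + 16 * z)
    : inK (x - ((0 : ℤ) : ℝ)) (y - ((0 : ℤ) : ℝ)) (z - ((-1 : ℤ) : ℝ)) := by
  unfold inK
  push_cast
  refine ⟨?_, ?_, ?_, ?_, ?_, ?_, ?_, ?_, ?_, ?_, ?_, ?_, ?_, ?_, ?_, ?_, ?_, ?_, ?_, ?_, ?_, ?_, ?_, ?_, ?_⟩ <;> linarith

lemma cov_leaf_8 (x y z : ℝ)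
    (a0 : 0 ≤ x)
    (a1 : y ≤ 1)
    (a2 : 0 ≤ z)
    (a3 : 14 ≤ (-9) * x + 15 * y + (-8) * z)
    : inK (x - ((-1 : ℤ) : ℝ)) (y - ((1 : ℤ) : ℝ)) (z - ((-1 : ℤ) : ℝ)) := by
  unfold inK
  push_cast
  refine ⟨?_, ?_, ?_, ?_, ?_, ?_, ?_, ?_, ?_, ?_, ?_, ?_, ?_, ?_, ?_, ?_, ?_, ?_, ?_, ?_, ?_, ?_, ?_, ?_, ?_⟩ <;> linarith

lemma cov_leaf_9 (x y z : ℝ)
    (a0 : x ≤ 1)
    (a1 : 0 ≤ y)
    (a2 : 3 * x + (-3) * y + (-4) * z ≤ 0)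
    (a3 : 3 * x + 3 * y + (-8) * z ≤ 5)
    (a4 : 23 * x + 3 * y + 16 * z ≤ 28)
    (a5 : 10 ≤ 27 * x + (-15) * y + (-16) * z)
    : inK (x - ((0 : ℤ) : ℝ)) (y - ((0 : ℤ) : ℝ)) (z - ((0 : ℤ) : ℝ)) := by
  unfold inK
  push_cast
  refine ⟨?_, ?_, ?_, ?_, ?_, ?_, ?_, ?_, ?_, ?_, ?_, ?_, ?_, ?_, ?_, ?_, ?_, ?_, ?_, ?_, ?_, ?_, ?_, ?_, ?_⟩ <;> linarith

lemma cov_leaf_10 (x y z : ℝ)
    (a0 : 0 ≤ x)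
    (a1 : y ≤ 1)
    (a2 : 23 * x + 3 * y + 16 * z ≤ 28)
    (a3 : 3 * x + 3 * y + 16 * z ≤ 18)
    (a4 : 46 ≤ 21 * x + 21 * y + 32 * z)
    (a5 : 3 * x + (-3) * y + (-4) * z ≤ (-3))
    (a6 : 27 * x + (-15) * y + (-16) * z ≤ (-5))
    : inK (x - ((-1 : ℤ) : ℝ)) (y - ((1 : ℤ) : ℝ)) (z - ((0 : ℤ) : ℝ)) := by
  unfold inK
  push_cast
  refine ⟨?_, ?_, ?_, ?_, ?_, ?_, ?_, ?_, ?_, ?_, ?_, ?_, ?_, ?_, ?_, ?_, ?_, ?_, ?_, ?_, ?_, ?_, ?_, ?_, ?_⟩ <;> linarith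

lemma cov_leaf_11 (x y z : ℝ)
    (a0 : y ≤ 1)
    (a1 : 23 * x + 3 * y + 16 * z ≤ 28)
    (a2 : 3 * x + (-3) * y + (-4) * z ≤ (-3))
    (a3 : (-5) ≤ 27 * x + (-15) * y + (-16) * z)
    : inK (x - ((0 : ℤ) : ℝ)) (y - ((0 : ℤ) : ℝ)) (z - ((0 : ℤ) : ℝ)) := by
  unfold inK
  push_cast
  refine ⟨?_, ?_, ?_, ?_, ?_, ?_, ?_, ?_, ?_, ?_, ?_, ?_, ?_, ?_, ?_, ?_, ?_, ?_, ?_, ?_, ?_, ?_, ?_, ?_, ?_⟩ <;> linarith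

lemma cov_leaf_12 (x y z : ℝ)
    (a0 : y ≤ 1)
    (a1 : 23 * x + 3 * y + 16 * z ≤ 28)
    (a2 : 46 ≤ 21 * x + 21 * y + 32 * z)
    (a3 : (-3) ≤ 3 * x + (-3) * y + (-4) * z)
    (a4 : (-3) * x + 3 * y + (-2) * z ≤ 0)
    (a5 : (-9) * x + 15 * y + (-8) * z ≤ 5)
    : inK (x - ((0 : ℤ) : ℝ)) (y - ((0 : ℤ) : ℝ)) (z - ((0 : ℤ) : ℝ)) := by
  unfold inK
  push_cast
  refine ⟨?_, ?_, ?_, ?_, ?_, ?_, ?_, ?_, ?_, ?_, ?_, ?_, ?_, ?_, ?_, ?_, ?_, ?_, ?_, ?_, ?_, ?_, ?_, ?_, ?_⟩ <;> linarith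

lemma cov_leaf_13 (x y z : ℝ)
    (a0 : y ≤ 1)
    (a1 : 46 ≤ 21 * x + 21 * y + 32 * z)
    (a2 : (-3) * x + 3 * y + (-2) * z ≤ 0)
    (a3 : 5 ≤ (-9) * x + 15 * y + (-8) * z)
    : inK (x - ((0 : ℤ) : ℝ)) (y - ((1 : ℤ) : ℝ)) (z - ((0 : ℤ) : ℝ)) := by
  unfold inK
  push_cast
  refine ⟨?_, ?_, ?_, ?_, ?_, ?_, ?_, ?_, ?_, ?_, ?_, ?_, ?_, ?_, ?_, ?_, ?_, ?_, ?_, ?_, ?_, ?_, ?_, ?_, ?_⟩ <;> linarith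

lemma cov_leaf_14 (x y z : ℝ)
    (a0 : y ≤ 1)
    (a1 : 46 ≤ 21 * x + 21 * y + 32 * z)
    (a2 : (-3) ≤ 3 * x + (-3) * y + (-4) * z)
    (a3 : 0 ≤ (-3) * x + 3 * y + (-2) * z)
    : inK (x - ((0 : ℤ) : ℝ)) (y - ((1 : ℤ) : ℝ)) (z - ((0 : ℤ) : ℝ)) := by
  unfold inK
  push_cast
  refine ⟨?_, ?_, ?_, ?_, ?_, ?_, ?_, ?_, ?_, ?_, ?_, ?_, ?_, ?_, ?_, ?_, ?_, ?_, ?_, ?_, ?_, ?_, ?_, ?_, ?_⟩ <;> linarith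

lemma cov_leaf_15 (x y z : ℝ)
    (a0 : 0 ≤ x)
    (a1 : y ≤ 1)
    (a2 : z ≤ 1)
    (a3 : 23 * x + 3 * y + 16 * z ≤ 28)
    (a4 : 18 ≤ 3 * x + 3 * y + 16 * z)
    : inK (x - ((-1 : ℤ) : ℝ)) (y - ((1 : ℤ) : ℝ)) (z - ((0 : ℤ) : ℝ)) := by
  unfold inK
  push_cast
  refine ⟨?_, ?_, ?_, ?_, ?_, ?_, ?_, ?_, ?_, ?_, ?_, ?_, ?_, ?_, ?_, ?_, ?_, ?_, ?_, ?_, ?_, ?_, ?_, ?_, ?_⟩ <;> linarith

lemma cov_leaf_16 (x y z : ℝ)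
    (a0 : x ≤ 1)
    (a1 : y ≤ 1)
    (a2 : 0 ≤ y)
    (a3 : z ≤ 1)
    (a4 : 3 * x + (-3) * y + (-4) * z ≤ 0)
    (a5 : 28 ≤ 23 * x + 3 * y + 16 * z)
    (a6 : 21 * x + 21 * y + 32 * z ≤ 67)
    (a7 : (-35) * x + 3 * y + 16 * z ≤ 2)
    (a8 : (-21) * x + (-21) * y + 16 * z ≤ 2)
    (a9 : (-139) * x + (-3) * y + 80 * z ≤ 10)
    : inK (x - ((0 : ℤ) : ℝ)) (y - ((0 : ℤ) : ℝ)) (z - ((0 : ℤ) : ℝ)) := by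
  unfold inK
  push_cast
  refine ⟨?_, ?_, ?_, ?_, ?_, ?_, ?_, ?_, ?_, ?_, ?_, ?_, ?_, ?_, ?_, ?_, ?_, ?_, ?_, ?_, ?_, ?_, ?_, ?_, ?_⟩ <;> linarith

lemma cov_leaf_17 (x y z : ℝ)
    (a0 : z ≤ 1)
    (a1 : 28 ≤ 23 * x + 3 * y + 16 * z)
    (a2 : (-35) * x + 3 * y + 16 * z ≤ 2)
    (a3 : 10 ≤ (-139) * x + (-3) * y + 80 * z)
    : inK (x - ((-1 : ℤ) : ℝ)) (y - ((1 : ℤ) : ℝ)) (z - ((0 : ℤ) : ℝ)) := by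
  unfold inK
  push_cast
  refine ⟨?_, ?_, ?_, ?_, ?_, ?_, ?_, ?_, ?_, ?_, ?_, ?_, ?_, ?_, ?_, ?_, ?_, ?_, ?_, ?_, ?_, ?_, ?_, ?_, ?_⟩ <;> linarith

lemma cov_leaf_18 (x y z : ℝ)
    (a0 : 0 ≤ y)
    (a1 : 28 ≤ 23 * x + 3 * y + 16 * z)
    (a2 : (-3) * x + (-3) * y + 8 * z ≤ 6)
    (a3 : 2 ≤ (-21) * x + (-21) * y + 16 * z)
    : inK (x - ((0 : ℤ) : ℝ)) (y - ((-1 : ℤ) : ℝ)) (z - ((0 : ℤ) : ℝ)) := by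
  unfold inK
  push_cast
  refine ⟨?_, ?_, ?_, ?_, ?_, ?_, ?_, ?_, ?_, ?_, ?_, ?_, ?_, ?_, ?_, ?_, ?_, ?_, ?_, ?_, ?_, ?_, ?_, ?_, ?_⟩ <;> linarith

lemma cov_leaf_19 (x y z : ℝ)
    (a0 : y ≤ 1)
    (a1 : z ≤ 1)
    (a2 : 28 ≤ 23 * x + 3 * y + 16 * z)
    (a3 : 2 ≤ (-35) * x + 3 * y + 16 * z)
    : inK (x - ((-1 : ℤ) : ℝ)) (y - ((1 : ℤ) : ℝ)) (z - ((0 : ℤ) : ℝ)) := by
  unfold inK
  push_cast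
  refine ⟨?_, ?_, ?_, ?_, ?_, ?_, ?_, ?_, ?_, ?_, ?_, ?_, ?_, ?_, ?_, ?_, ?_, ?_, ?_, ?_, ?_, ?_, ?_, ?_, ?_⟩ <;> linarith

lemma cov_leaf_20 (x y z : ℝ)
    (a0 : x ≤ 1)
    (a1 : y ≤ 1)
    (a2 : 3 * x + 3 * y + 16 * z ≤ 21)
    (a3 : 67 ≤ 21 * x + 21 * y + 32 * z)
    : inK (x - ((0 : ℤ) : ℝ)) (y - ((1 : ℤ) : ℝ)) (z - ((0 : ℤ) : ℝ)) := by
  unfold inK
  push_cast
  refine ⟨?_, ?_, ?_, ?_, ?_, ?_, ?_, ?_, ?_, ?_, ?_, ?_, ?_, ?_, ?_, ?_, ?_, ?_, ?_, ?_, ?_, ?_, ?_, ?_, ?_⟩ <;> linarith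

lemma cov_leaf_21 (x y z : ℝ)
    (a0 : x ≤ 1)
    (a1 : y ≤ 1)
    (a2 : z ≤ 1)
    (a3 : 21 ≤ 3 * x + 3 * y + 16 * z)
    : inK (x - ((0 : ℤ) : ℝ)) (y - ((1 : ℤ) : ℝ)) (z - ((0 : ℤ) : ℝ)) := by
  unfold inK
  push_cast
  refine ⟨?_, ?_, ?_, ?_, ?_, ?_, ?_, ?_, ?_, ?_, ?_, ?_, ?_, ?_, ?_, ?_, ?_, ?_, ?_, ?_, ?_, ?_, ?_, ?_, ?_⟩ <;> linarith

lemma cov_leaf_22 (x y z : ℝ)
    (a0 : 0 ≤ y)
    (a1 : z ≤ 1)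
    (a2 : 28 ≤ 23 * x + 3 * y + 16 * z)
    (a3 : 6 ≤ (-3) * x + (-3) * y + 8 * z)
    : inK (x - ((0 : ℤ) : ℝ)) (y - ((-1 : ℤ) : ℝ)) (z - ((0 : ℤ) : ℝ)) := by
  unfold inK
  push_cast
  refine ⟨?_, ?_, ?_, ?_, ?_, ?_, ?_, ?_, ?_, ?_, ?_, ?_, ?_, ?_, ?_, ?_, ?_, ?_, ?_, ?_, ?_, ?_, ?_, ?_, ?_⟩ <;> linarith

lemma cov_leaf_23 (x y z : ℝ)
    (a0 : x ≤ 1)
    (a1 : y ≤ 1)
    (a2 : 0 ≤ z)
    (a3 : 3 * x + (-3) * y + (-4) * z ≤ 0)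
    (a4 : 5 ≤ 3 * x + 3 * y + (-8) * z)
    : inK (x - ((0 : ℤ) : ℝ)) (y - ((1 : ℤ) : ℝ)) (z - ((-1 : ℤ) : ℝ)) := by
  unfold inK
  push_cast
  refine ⟨?_, ?_, ?_, ?_, ?_, ?_, ?_, ?_, ?_, ?_, ?_, ?_, ?_, ?_, ?_, ?_, ?_, ?_, ?_, ?_, ?_, ?_, ?_, ?_, ?_⟩ <;> linarith

lemma cov_leaf_24 (x y z : ℝ)
    (a0 : 0 ≤ x)
    (a1 : 0 ≤ y)
    (a2 : 0 ≤ z)
    (a3 : 3 * x + (-3) * y + (-4) * z ≤ 0)
    (a4 : (-1) ≤ 3 * x + (-6) * y + (-8) * z)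
    (a5 : 3 * x + 3 * y + 16 * z ≤ 2)
    : inK (x - ((-1 : ℤ) : ℝ)) (y - ((0 : ℤ) : ℝ)) (z - ((-1 : ℤ) : ℝ)) := by
  unfold inK
  push_cast
  refine ⟨?_, ?_, ?_, ?_, ?_, ?_, ?_, ?_, ?_, ?_, ?_, ?_, ?_, ?_, ?_, ?_, ?_, ?_, ?_, ?_, ?_, ?_, ?_, ?_, ?_⟩ <;> linarith

lemma cov_leaf_25 (x y z : ℝ)
    (a0 : 0 ≤ y)
    (a1 : 3 * x + (-3) * y + (-4) * z ≤ 0)
    (a2 : (-1) ≤ 3 * x + (-6) * y + (-8) * z)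
    (a3 : 2 ≤ 3 * x + 3 * y + 16 * z)
    : inK (x - ((0 : ℤ) : ℝ)) (y - ((0 : ℤ) : ℝ)) (z - ((0 : ℤ) : ℝ)) := by
  unfold inK
  push_cast
  refine ⟨?_, ?_, ?_, ?_, ?_, ?_, ?_, ?_, ?_, ?_, ?_, ?_, ?_, ?_, ?_, ?_, ?_, ?_, ?_, ?_, ?_, ?_, ?_, ?_, ?_⟩ <;> linarith

lemma cov_leaf_26 (x y z : ℝ)
    (a0 : x ≤ 1)
    (a1 : 0 ≤ y)
    (a2 : 0 ≤ z)
    (a3 : 0 ≤ 3 * x + (-3) * y + (-4) * z)
    (a4 : 3 * x + (-6) * y + (-8) * z ≤ 2)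
    (a5 : (-3) * x + (-3) * y + (-16) * z ≤ (-2))
    (a6 : (-3) * x + 15 * y + (-16) * z ≤ 10)
    : inK (x - ((0 : ℤ) : ℝ)) (y - ((0 : ℤ) : ℝ)) (z - ((0 : ℤ) : ℝ)) := by
  unfold inK
  push_cast
  refine ⟨?_, ?_, ?_, ?_, ?_, ?_, ?_, ?_, ?_, ?_, ?_, ?_, ?_, ?_, ?_, ?_, ?_, ?_, ?_, ?_, ?_, ?_, ?_, ?_, ?_⟩ <;> linarith

lemma cov_leaf_27 (x y z : ℝ)
    (a0 : x ≤ 1)
    (a1 : 0 ≤ z)
    (a2 : 0 ≤ 3 * x + (-3) * y + (-4) * z)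
    (a3 : (-9) * x + 15 * y + (-8) * z ≤ 5)
    (a4 : 10 ≤ (-3) * x + 15 * y + (-16) * z)
    : inK (x - ((0 : ℤ) : ℝ)) (y - ((1 : ℤ) : ℝ)) (z - ((-1 : ℤ) : ℝ)) := by
  unfold inK
  push_cast
  refine ⟨?_, ?_, ?_, ?_, ?_, ?_, ?_, ?_, ?_, ?_, ?_, ?_, ?_, ?_, ?_, ?_, ?_, ?_, ?_, ?_, ?_, ?_, ?_, ?_, ?_⟩ <;> linarith

lemma cov_leaf_28 (x y z : ℝ)
    (a0 : x ≤ 1)
    (a1 : 0 ≤ z)
    (a2 : 0 ≤ 3 * x + (-3) * y + (-4) * z)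
    (a3 : 5 ≤ (-9) * x + 15 * y + (-8) * z)
    : inK (x - ((0 : ℤ) : ℝ)) (y - ((1 : ℤ) : ℝ)) (z - ((-1 : ℤ) : ℝ)) := by
  unfold inK
  push_cast
  refine ⟨?_, ?_, ?_, ?_, ?_, ?_, ?_, ?_, ?_, ?_, ?_, ?_, ?_, ?_, ?_, ?_, ?_, ?_, ?_, ?_, ?_, ?_, ?_, ?_, ?_⟩ <;> linarith

lemma cov_leaf_29 (x y z : ℝ)
    (a0 : 0 ≤ y)
    (a1 : 0 ≤ z)
    (a2 : 0 ≤ 3 * x + (-3) * y + (-4) * z)
    (a3 : (-2) ≤ (-3) * x + (-3) * y + (-16) * z)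
    (a4 : 23 * x + 3 * y + 16 * z ≤ 12)
    (a5 : 151 * x + (-3) * y + 80 * z ≤ 78)
    : inK (x - ((-1 : ℤ) : ℝ)) (y - ((0 : ℤ) : ℝ)) (z - ((-1 : ℤ) : ℝ)) := by
  unfold inK
  push_cast
  refine ⟨?_, ?_, ?_, ?_, ?_, ?_, ?_, ?_, ?_, ?_, ?_, ?_, ?_, ?_, ?_, ?_, ?_, ?_, ?_, ?_, ?_, ?_, ?_, ?_, ?_⟩ <;> linarith

lemma cov_leaf_30 (x y z : ℝ)
    (a0 : 0 ≤ y)
    (a1 : 0 ≤ z)
    (a2 : 23 * x + 3 * y + 16 * z ≤ 12)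
    (a3 : 78 ≤ 151 * x + (-3) * y + 80 * z)
    : inK (x - ((0 : ℤ) : ℝ)) (y - ((-1 : ℤ) : ℝ)) (z - ((-1 : ℤ) : ℝ)) := by
  unfold inK
  push_cast
  refine ⟨?_, ?_, ?_, ?_, ?_, ?_, ?_, ?_, ?_, ?_, ?_, ?_, ?_, ?_, ?_, ?_, ?_, ?_, ?_, ?_, ?_, ?_, ?_, ?_, ?_⟩ <;> linarith

lemma cov_leaf_31 (x y z : ℝ)
    (a0 : 0 ≤ y)
    (a1 : 0 ≤ z)
    (a2 : (-2) ≤ (-3) * x + (-3) * y + (-16) * z)
    (a3 : 12 ≤ 23 * x + 3 * y + 16 * z)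
    : inK (x - ((0 : ℤ) : ℝ)) (y - ((-1 : ℤ) : ℝ)) (z - ((-1 : ℤ) : ℝ)) := by
  unfold inK
  push_cast
  refine ⟨?_, ?_, ?_, ?_, ?_, ?_, ?_, ?_, ?_, ?_, ?_, ?_, ?_, ?_, ?_, ?_, ?_, ?_, ?_, ?_, ?_, ?_, ?_, ?_, ?_⟩ <;> linarith

lemma cov_leaf_32 (x y z : ℝ)
    (a0 : x ≤ 1)
    (a1 : 0 ≤ y)
    (a2 : 0 ≤ z)
    (a3 : 2 ≤ 3 * x + (-6) * y + (-8) * z)
    : inK (x - ((0 : ℤ) : ℝ)) (y - ((0 : ℤ) : ℝ)) (z - ((-1 : ℤ) : ℝ)) := by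
  unfold inK
  push_cast
  refine ⟨?_, ?_, ?_, ?_, ?_, ?_, ?_, ?_, ?_, ?_, ?_, ?_, ?_, ?_, ?_, ?_, ?_, ?_, ?_, ?_, ?_, ?_, ?_, ?_, ?_⟩ <;> linarith

/-- Every point of the unit cube lies in an integer translate of the polytope. -/
lemma cover_cube (x y z : ℝ) (bx0 : 0 ≤ x) (bx1 : x ≤ 1) (by0 : 0 ≤ y) (by1 : y ≤ 1)
    (bz0 : 0 ≤ z) (bz1 : z ≤ 1) : ∃ i j k : ℤ, inK (x - i) (y - j) (z - k) := by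
  rcases le_total (3 * x + (-3) * y + (-4) * z) 0 with h0 | h0
  · rcases le_total (3 * x + (-6) * y + (-8) * z) (-1) with h1 | h1
    · rcases le_total (3 * x + 3 * y + (-8) * z) 5 with h2 | h2
      · rcases le_total (23 * x + 3 * y + 16 * z) 28 with h3 | h3
        · rcases le_total (3 * x + 3 * y + 16 * z) 18 with h4 | h4
          · rcases le_total (21 * x + 21 * y + 32 * z) 46 with h5 | h5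
            · rcases le_total (27 * x + (-15) * y + (-16) * z) 10 with h6 | h6
              · rcases le_total ((-9) * x + 15 * y + (-8) * z) 14 with h7 | h7
                · rcases le_total ((-3) * x + 15 * y + (-16) * z) 13 with h8 | h8
                  · rcases le_total (27 * x + (-51) * y + (-64) * z) (-8) with h9 | h9
                    · rcases le_total (151 * x + (-3) * y + 80 * z) 158 with h10 | h10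
                      · exact ⟨-1, 0, 0, cov_leaf_0 x y z bx0 by1 by0 bz1 bz0 h0 h1 h2 h3 h5 h6 h8 h9 h10⟩
                      · rcases le_total ((-3) * x + (-3) * y + 8 * z) 6 with h11 | h11
                        · rcases le_total ((-21) * x + (-21) * y + 16 * z) 2 with h12 | h12
                          · exact ⟨0, 0, 0, cov_leaf_1 x y z by0 h3 h6 h10 h12⟩
                          · exact ⟨0, -1, 0, cov_leaf_2 x y z by0 h3 h10 h11 h12⟩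
                        · exact ⟨0, -1, 0, cov_leaf_3 x y z by0 bz1 h3 h10 h11⟩
                    · exact ⟨0, 0, 0, cov_leaf_4 x y z by0 h0 h1 h9⟩
                  · rcases le_total (23 * x + 3 * y + 16 * z) 15 with h9 | h9
                    · rcases le_total (151 * x + (-3) * y + 80 * z) 75 with h10 | h10
                      · exact ⟨-1, 1, -1, cov_leaf_5 x y z bx0 by1 bz0 h7 h8 h10⟩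
                      · exact ⟨0, 0, -1, cov_leaf_6 x y z by1 bz0 h8 h9 h10⟩
                    · exact ⟨0, 0, -1, cov_leaf_7 x y z by1 bz0 h8 h9⟩
                · exact ⟨-1, 1, -1, cov_leaf_8 x y z bx0 by1 bz0 h7⟩
              · exact ⟨0, 0, 0, cov_leaf_9 x y z bx1 by0 h0 h2 h3 h6⟩
            · rcases le_total (3 * x + (-3) * y + (-4) * z) (-3) with h6 | h6
              · rcases le_total (27 * x + (-15) * y + (-16) * z) (-5) with h7 | h7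
                · exact ⟨-1, 1, 0, cov_leaf_10 x y z bx0 by1 h3 h4 h5 h6 h7⟩
                · exact ⟨0, 0, 0, cov_leaf_11 x y z by1 h3 h6 h7⟩
              · rcases le_total ((-3) * x + 3 * y + (-2) * z) 0 with h7 | h7
                · rcases le_total ((-9) * x + 15 * y + (-8) * z) 5 with h8 | h8
                  · exact ⟨0, 0, 0, cov_leaf_12 x y z by1 h3 h5 h6 h7 h8⟩
                  · exact ⟨0, 1, 0, cov_leaf_13 x y z by1 h5 h7 h8⟩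
                · exact ⟨0, 1, 0, cov_leaf_14 x y z by1 h5 h6 h7⟩
          · exact ⟨-1, 1, 0, cov_leaf_15 x y z bx0 by1 bz1 h3 h4⟩
        · rcases le_total ((-3) * x + (-3) * y + 8 * z) 6 with h4 | h4
          · rcases le_total (3 * x + 3 * y + 16 * z) 21 with h5 | h5
            · rcases le_total (21 * x + 21 * y + 32 * z) 67 with h6 | h6
              · rcases le_total ((-35) * x + 3 * y + 16 * z) 2 with h7 | h7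
                · rcases le_total ((-21) * x + (-21) * y + 16 * z) 2 with h8 | h8
                  · rcases le_total ((-139) * x + (-3) * y + 80 * z) 10 with h9 | h9
                    · exact ⟨0, 0, 0, cov_leaf_16 x y z bx1 by1 by0 bz1 h0 h3 h6 h7 h8 h9⟩
                    · exact ⟨-1, 1, 0, cov_leaf_17 x y z bz1 h3 h7 h9⟩
                  · exact ⟨0, -1, 0, cov_leaf_18 x y z by0 h3 h4 h8⟩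
                · exact ⟨-1, 1, 0, cov_leaf_19 x y z by1 bz1 h3 h7⟩
              · exact ⟨0, 1, 0, cov_leaf_20 x y z bx1 by1 h5 h6⟩
            · exact ⟨0, 1, 0, cov_leaf_21 x y z bx1 by1 bz1 h5⟩
          · exact ⟨0, -1, 0, cov_leaf_22 x y z by0 bz1 h3 h4⟩
      · exact ⟨0, 1, -1, cov_leaf_23 x y z bx1 by1 bz0 h0 h2⟩
    · rcases le_total (3 * x + 3 * y + 16 * z) 2 with h2 | h2
      · exact ⟨-1, 0, -1, cov_leaf_24 x y z bx0 by0 bz0 h0 h1 h2⟩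
      · exact ⟨0, 0, 0, cov_leaf_25 x y z by0 h0 h1 h2⟩
  · rcases le_total (3 * x + (-6) * y + (-8) * z) 2 with h1 | h1
    · rcases le_total ((-3) * x + (-3) * y + (-16) * z) (-2) with h2 | h2
      · rcases le_total ((-9) * x + 15 * y + (-8) * z) 5 with h3 | h3
        · rcases le_total ((-3) * x + 15 * y + (-16) * z) 10 with h4 | h4
          · exact ⟨0, 0, 0, cov_leaf_26 x y z bx1 by0 bz0 h0 h1 h2 h4⟩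
          · exact ⟨0, 1, -1, cov_leaf_27 x y z bx1 bz0 h0 h3 h4⟩
        · exact ⟨0, 1, -1, cov_leaf_28 x y z bx1 bz0 h0 h3⟩
      · rcases le_total (23 * x + 3 * y + 16 * z) 12 with h3 | h3
        · rcases le_total (151 * x + (-3) * y + 80 * z) 78 with h4 | h4
          · exact ⟨-1, 0, -1, cov_leaf_29 x y z by0 bz0 h0 h2 h3 h4⟩
          · exact ⟨0, -1, -1, cov_leaf_30 x y z by0 bz0 h3 h4⟩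
        · exact ⟨0, -1, -1, cov_leaf_31 x y z by0 bz0 h2 h3⟩
    · exact ⟨0, 0, -1, cov_leaf_32 x y z bx1 by0 bz0 h1⟩

/-- Every point of space lies in an integer translate of the polytope. -/
lemma cover_space (x y z : ℝ) : ∃ i j k : ℤ, inK (x - i) (y - j) (z - k) := by
  obtain ⟨i, j, k, h⟩ := cover_cube (Int.fract x) (Int.fract y) (Int.fract z)
    (Int.fract_nonneg x) (Int.fract_lt_one x).le (Int.fract_nonneg y) (Int.fract_lt_one y).le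
    (Int.fract_nonneg z) (Int.fract_lt_one z).le
  refine ⟨⌊x⌋ + i, ⌊y⌋ + j, ⌊z⌋ + k, ?_⟩
  have ex : x - ((⌊x⌋ + i : ℤ) : ℝ) = Int.fract x - i := by
    rw [Int.fract]; push_cast; ring
  have ey : y - ((⌊y⌋ + j : ℤ) : ℝ) = Int.fract y - j := by
    rw [Int.fract]; push_cast; ring
  have ez : z - ((⌊z⌋ + k : ℤ) : ℝ) = Int.fract z - k := by
    rw [Int.fract]; push_cast; ring
  rw [ex, ey, ez]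
  exact h


end Pool.Agent.CoveringBody
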