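import Pool.Agent.CoveringBody.Cover

/-!
Auxiliary linear arithmetic, second part: the polytope given by the 25 inequalities is
contained in every convex set that contains its 17 vertices.
-/

namespace Pool.Agent.CoveringBody

/-- A point of Euclidean 3-space from its coordinates. -/
noncomputable def pt (x y z : ℝ) : EuclideanSpace ℝ (Fin 3) := !₂[x, y, z]

lemma conv4 {C : Set (EuclideanSpace ℝ (Fin 3))} (hC : Convex ℝ C)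
    {x y z a0 a1 a2 b0 b1 b2 c0 c1 c2 d0 d1 d2 : ℝ}
    (ha : pt a0 a1 a2 ∈ C) (hb : pt b0 b1 b2 ∈ C) (hc : pt c0 c1 c2 ∈ C) (hd : pt d0 d1 d2 ∈ C)
    (u v w t : ℝ) (hu : 0 ≤ u) (hv : 0 ≤ v) (hw : 0 ≤ w) (ht : 0 ≤ t) (hs : u + v + w + t = 1)
    (hx : x = u * a0 + v * b0 + w * c0 + t * d0)
    (hy : y = u * a1 + v * b1 + w * c1 + t * d1)
    (hz : z = u * a2 + v * b2 + w * c2 + t * d2) : pt x y z ∈ C := by
  have key : pt x y z = ∑ i : Fin 4, ![u, v, w, t] i •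
      ![pt a0 a1 a2, pt b0 b1 b2, pt c0 c1 c2, pt d0 d1 d2] i := by
    ext i
    fin_cases i
    · simp [Fin.sum_univ_four, pt, hx]
    · simp [Fin.sum_univ_four, pt, hy]
    · simp [Fin.sum_univ_four, pt, hz]
  rw [key]
  apply hC.sum_mem
  · intro i _
    fin_cases i <;> simpa
  · simpa [Fin.sum_univ_four] using hs
  · intro i _
    fin_cases i
    · simpa using ha
    · simpa using hb
    · simpa using hc
    · simpa using hd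

lemma hull_leaf_0 {C : Set (EuclideanSpace ℝ (Fin 3))} (hC : Convex ℝ C) (x y z : ℝ)
    (a0 : (-15) * x + (-111) * y + (-80) * z ≤ (-10))
    (a1 : (-42) * x + (-21) * y + 52 * z ≤ (13 / 2))
    (a2 : (-21) * x + 93 * y + (-112) * z ≤ (-14))
    (a3 : 12 * x + 6 * y + (-5) * z ≤ 8)
    (m0 : pt (1 / 2) (7 / 6) 1 ∈ C)
    (m1 : pt 0 0 (1 / 8) ∈ C)
    (m2 : pt (2 / 3) 0 0 ∈ C)
    (m3 : pt (3 / 2) (-5 / 6) 1 ∈ C)
    : pt x y z ∈ C := by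
  refine conv4 hC m0 m1 m2 m3
    ((5 / 69) * x + (37 / 69) * y + (80 / 207) * z + (-10 / 207))
    ((-32 / 23) * x + (-16 / 23) * y + (40 / 69) * z + (64 / 69))
    ((28 / 23) * x + (14 / 23) * y + (-104 / 69) * z + (13 / 69))
    ((7 / 69) * x + (-31 / 69) * y + (112 / 207) * z + (-14 / 207))
    ?_ ?_ ?_ ?_ ?_ ?_ ?_ ?_
  · linarith
  · linarith
  · linarith
  · linarith
  · ring
  · ring
  · ring
  · ring

lemma hull_leaf_1 {C : Set (EuclideanSpace ℝ (Fin 3))} (hC : Convex ℝ C) (x y z : ℝ)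
    (a0 : 15 * x + (-33) * y + (-40) * z ≤ 10)
    (a1 : 21 * x + 51 * y + (-56) * z ≤ 14)
    (a2 : 42 * x + 21 * y + (-4) * z ≤ (83 / 2))
    (a3 : 8 ≤ 12 * x + 6 * y + (-5) * z)
    (m0 : pt (1 / 2) (7 / 6) 1 ∈ C)
    (m1 : pt (2 / 3) 0 0 ∈ C)
    (m2 : pt 1 0 (1 / 8) ∈ C)
    (m3 : pt (3 / 2) (-5 / 6) 1 ∈ C)
    : pt x y z ∈ C := by
  refine conv4 hC m0 m1 m2 m3
    ((-5 / 27) * x + (11 / 27) * y + (40 / 81) * z + (10 / 81))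
    ((-28 / 9) * x + (-14 / 9) * y + (8 / 27) * z + (83 / 27))
    ((32 / 9) * x + (16 / 9) * y + (-40 / 27) * z + (-64 / 27))
    ((-7 / 27) * x + (-17 / 27) * y + (56 / 81) * z + (14 / 81))
    ?_ ?_ ?_ ?_ ?_ ?_ ?_ ?_
  · linarith
  · linarith
  · linarith
  · linarith
  · ring
  · ring
  · ring
  · ring

lemma hull_leaf_2 {C : Set (EuclideanSpace ℝ (Fin 3))} (hC : Convex ℝ C) (x y z : ℝ)
    (a0 : 27 * x + (-51) * y + (-64) * z ≤ 19)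
    (a1 : 12 * x + 6 * y + 5 * z ≤ 18)
    (a2 : 21 * x + 51 * y + (-56) * z ≤ 14)
    (a3 : (83 / 2) ≤ 42 * x + 21 * y + (-4) * z)
    (m0 : pt (1 / 2) (7 / 6) 1 ∈ C)
    (m1 : pt 1 0 (1 / 8) ∈ C)
    (m2 : pt (4 / 3) (1 / 3) 0 ∈ C)
    (m3 : pt (3 / 2) (-5 / 6) 1 ∈ C)
    : pt x y z ∈ C := by
  refine conv4 hC m0 m1 m2 m3
    ((-9 / 43) * x + (17 / 43) * y + (64 / 129) * z + (19 / 129))
    ((-96 / 43) * x + (-48 / 43) * y + (-40 / 43) * z + (144 / 43))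
    ((84 / 43) * x + (42 / 43) * y + (-8 / 43) * z + (-83 / 43))
    ((21 / 43) * x + (-11 / 43) * y + (80 / 129) * z + (-73 / 129))
    ?_ ?_ ?_ ?_ ?_ ?_ ?_ ?_
  · linarith
  · linarith
  · linarith
  · linarith
  · ring
  · ring
  · ring
  · ring

lemma hull_leaf_3 {C : Set (EuclideanSpace ℝ (Fin 3))} (hC : Convex ℝ C) (x y z : ℝ)
    (a0 : (-63) * x + 51 * y + (-32) * z ≤ (-4))
    (a1 : (-3) * x + (-3) * y + (-16) * z ≤ (-2))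
    (a2 : 21 * x + 51 * y + (-56) * z ≤ 14)
    (a3 : (-14) ≤ (-21) * x + 93 * y + (-112) * z)
    (m0 : pt (1 / 2) (7 / 6) 1 ∈ C)
    (m1 : pt 0 0 (1 / 8) ∈ C)
    (m2 : pt (1 / 3) (1 / 3) 0 ∈ C)
    (m3 : pt (2 / 3) 0 0 ∈ C)
    : pt x y z ∈ C := by
  refine conv4 hC m0 m1 m2 m3
    ((3 / 19) * x + (3 / 19) * y + (16 / 19) * z + (-2 / 19))
    ((-24 / 19) * x + (-24 / 19) * y + (24 / 19) * z + (16 / 19))
    ((-21 / 38) * x + (93 / 38) * y + (-56 / 19) * z + (7 / 19))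
    ((63 / 38) * x + (-51 / 38) * y + (16 / 19) * z + (-2 / 19))
    ?_ ?_ ?_ ?_ ?_ ?_ ?_ ?_
  · linarith
  · linarith
  · linarith
  · linarith
  · ring
  · ring
  · ring
  · ring

lemma hull_leaf_4 {C : Set (EuclideanSpace ℝ (Fin 3))} (hC : Convex ℝ C) (x y z : ℝ)
    (a0 : (-21) * x + (-21) * y + 16 * z ≤ 2)
    (a1 : (13 / 2) ≤ (-42) * x + (-21) * y + 52 * z)
    (a2 : 0 * x + 0 * y + 1 * z ≤ 1)
    (a3 : (-7) * x + 0 * y + 4 * z ≤ (1 / 2))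
    (m0 : pt (1 / 2) (7 / 6) 1 ∈ C)
    (m1 : pt 0 0 (1 / 8) ∈ C)
    (m2 : pt (1 / 2) (1 / 6) 1 ∈ C)
    (m3 : pt (3 / 2) (-5 / 6) 1 ∈ C)
    : pt x y z ∈ C := by
  refine conv4 hC m0 m1 m2 m3
    (1 * x + 1 * y + (-16 / 21) * z + (2 / 21))
    (0 * x + 0 * y + (-8 / 7) * z + (8 / 7))
    ((-2) * x + (-1) * y + (52 / 21) * z + (-13 / 42))
    (1 * x + 0 * y + (-4 / 7) * z + (1 / 14))
    ?_ ?_ ?_ ?_ ?_ ?_ ?_ ?_
  · linarith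
  · linarith
  · linarith
  · linarith
  · ring
  · ring
  · ring
  · ring

lemma hull_leaf_5 {C : Set (EuclideanSpace ℝ (Fin 3))} (hC : Convex ℝ C) (x y z : ℝ)
    (a0 : (-139) * x + (-3) * y + 80 * z ≤ 10)
    (a1 : (-35) * x + 3 * y + 16 * z ≤ 2)
    (a2 : 0 * x + 0 * y + 1 * z ≤ 1)
    (a3 : (1 / 2) ≤ (-7) * x + 0 * y + 4 * z)
    (m0 : pt (1 / 2) (7 / 6) 1 ∈ C)
    (m1 : pt 0 0 (1 / 8) ∈ C)
    (m2 : pt (1 / 2) (1 / 6) 1 ∈ C)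
    (m3 : pt (1 / 2) 1 (33 / 32) ∈ C)
    : pt x y z ∈ C := by
  refine conv4 hC m0 m1 m2 m3
    ((139 / 3) * x + 1 * y + (-80 / 3) * z + (10 / 3))
    ((-2) * x + 0 * y + 0 * z + 1)
    ((35 / 3) * x + (-1) * y + (-16 / 3) * z + (2 / 3))
    ((-56) * x + 0 * y + 32 * z + (-4))
    ?_ ?_ ?_ ?_ ?_ ?_ ?_ ?_
  · linarith
  · linarith
  · linarith
  · linarith
  · ring
  · ring
  · ring
  · ring

lemma hull_leaf_6 {C : Set (EuclideanSpace ℝ (Fin 3))} (hC : Convex ℝ C) (x y z : ℝ)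
    (a0 : (-3) * x + (-3) * y + 8 * z ≤ 6)
    (a1 : 1 ≤ 0 * x + 0 * y + 1 * z)
    (a2 : (-1) * x + 0 * y + 4 * z ≤ (7 / 2))
    (a3 : 6 * x + 3 * y + 4 * z ≤ (21 / 2))
    (m0 : pt (1 / 2) (7 / 6) 1 ∈ C)
    (m1 : pt (1 / 2) (1 / 6) 1 ∈ C)
    (m2 : pt 1 0 (9 / 8) ∈ C)
    (m3 : pt (3 / 2) (-5 / 6) 1 ∈ C)
    : pt x y z ∈ C := by
  refine conv4 hC m0 m1 m2 m3
    (1 * x + 1 * y + (-8 / 3) * z + 2)
    ((-2) * x + (-1) * y + (-4 / 3) * z + (7 / 2))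
    (0 * x + 0 * y + 8 * z + (-8))
    (1 * x + 0 * y + (-4) * z + (7 / 2))
    ?_ ?_ ?_ ?_ ?_ ?_ ?_ ?_
  · linarith
  · linarith
  · linarith
  · linarith
  · ring
  · ring
  · ring
  · ring

lemma hull_leaf_7 {C : Set (EuclideanSpace ℝ (Fin 3))} (hC : Convex ℝ C) (x y z : ℝ)
    (a0 : 3 * x + 3 * y + 16 * z ≤ 21)
    (a1 : 15 * x + (-3) * y + 80 * z ≤ 105)
    (a2 : 12 * x + 6 * y + 5 * z ≤ 18)
    (a3 : (21 / 2) ≤ 6 * x + 3 * y + 4 * z)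
    (m0 : pt (1 / 2) (7 / 6) 1 ∈ C)
    (m1 : pt 1 0 (9 / 8) ∈ C)
    (m2 : pt (3 / 2) (-5 / 6) 1 ∈ C)
    (m3 : pt (3 / 2) 0 (33 / 32) ∈ C)
    : pt x y z ∈ C := by
  refine conv4 hC m0 m1 m2 m3
    ((-5 / 7) * x + (1 / 7) * y + (-80 / 21) * z + 5)
    ((-4 / 7) * x + (-2 / 7) * y + (160 / 21) * z + (-7))
    ((-1) * x + (-1) * y + (-16 / 3) * z + 7)
    ((16 / 7) * x + (8 / 7) * y + (32 / 21) * z + (-4))
    ?_ ?_ ?_ ?_ ?_ ?_ ?_ ?_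
  · linarith
  · linarith
  · linarith
  · linarith
  · ring
  · ring
  · ring
  · ring

lemma hull_leaf_8 {C : Set (EuclideanSpace ℝ (Fin 3))} (hC : Convex ℝ C) (x y z : ℝ)
    (a0 : (-21) * x + (-3) * y + 80 * z ≤ 69)
    (a1 : 3 * x + 3 * y + 16 * z ≤ 21)
    (a2 : (7 / 2) ≤ (-1) * x + 0 * y + 4 * z)
    (a3 : (-1) * x + 0 * y + 0 * z ≤ (-1 / 2))
    (m0 : pt (1 / 2) (7 / 6) 1 ∈ C)
    (m1 : pt (1 / 2) (1 / 6) 1 ∈ C)
    (m2 : pt (1 / 2) 1 (33 / 32) ∈ C)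
    (m3 : pt 1 0 (9 / 8) ∈ C)
    : pt x y z ∈ C := by
  refine conv4 hC m0 m1 m2 m3
    (7 * x + 1 * y + (-80 / 3) * z + 23)
    ((-1) * x + (-1) * y + (-16 / 3) * z + 7)
    ((-8) * x + 0 * y + 32 * z + (-28))
    (2 * x + 0 * y + 0 * z + (-1))
    ?_ ?_ ?_ ?_ ?_ ?_ ?_ ?_
  · linarith
  · linarith
  · linarith
  · linarith
  · ring
  · ring
  · ring
  · ring

lemma hull_leaf_9 {C : Set (EuclideanSpace ℝ (Fin 3))} (hC : Convex ℝ C) (x y z : ℝ)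
    (a0 : (-139) * x + (-3) * y + 80 * z ≤ 10)
    (a1 : (-35) * x + 3 * y + 16 * z ≤ 2)
    (a2 : 1 ≤ 0 * x + 0 * y + 1 * z)
    (a3 : (-1 / 2) ≤ (-1) * x + 0 * y + 0 * z)
    (m0 : pt (1 / 2) (7 / 6) 1 ∈ C)
    (m1 : pt 0 0 (1 / 8) ∈ C)
    (m2 : pt (1 / 2) (1 / 6) 1 ∈ C)
    (m3 : pt (1 / 2) 1 (33 / 32) ∈ C)
    : pt x y z ∈ C := by
  refine conv4 hC m0 m1 m2 m3
    ((139 / 3) * x + 1 * y + (-80 / 3) * z + (10 / 3))
    ((-2) * x + 0 * y + 0 * z + 1)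
    ((35 / 3) * x + (-1) * y + (-16 / 3) * z + (2 / 3))
    ((-56) * x + 0 * y + 32 * z + (-4))
    ?_ ?_ ?_ ?_ ?_ ?_ ?_ ?_
  · linarith
  · linarith
  · linarith
  · linarith
  · ring
  · ring
  · ring
  · ring

lemma hull_leaf_10 {C : Set (EuclideanSpace ℝ (Fin 3))} (hC : Convex ℝ C) (x y z : ℝ)
    (a0 : (-3) * x + 3 * y + (-2) * z ≤ 0)
    (a1 : 0 * x + 0 * y + (-1) * z ≤ 0)
    (a2 : 1 * x + 1 * y + 0 * z ≤ (5 / 3))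
    (a3 : 0 * x + (-6) * y + 5 * z ≤ (-2))
    (m0 : pt (1 / 2) (7 / 6) 1 ∈ C)
    (m1 : pt (4 / 3) (1 / 3) 0 ∈ C)
    (m2 : pt (1 / 3) (1 / 3) 0 ∈ C)
    (m3 : pt (5 / 6) (5 / 6) 0 ∈ C)
    : pt x y z ∈ C := by
  refine conv4 hC m0 m1 m2 m3
    (0 * x + 0 * y + 1 * z + 0)
    (1 * x + (-1) * y + (2 / 3) * z + 0)
    ((-1) * x + (-1) * y + 0 * z + (5 / 3))
    (0 * x + 2 * y + (-5 / 3) * z + (-2 / 3))
    ?_ ?_ ?_ ?_ ?_ ?_ ?_ ?_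
  · linarith
  · linarith
  · linarith
  · linarith
  · ring
  · ring
  · ring
  · ring

lemma hull_leaf_11 {C : Set (EuclideanSpace ℝ (Fin 3))} (hC : Convex ℝ C) (x y z : ℝ)
    (a0 : 0 * x + 0 * y + (-1) * z ≤ 0)
    (a1 : 2 * x + (-4) * y + 5 * z ≤ (4 / 3))
    (a2 : (-2) ≤ 0 * x + (-6) * y + 5 * z)
    (a3 : (-1) * x + (-1) * y + 1 * z ≤ (-2 / 3))
    (m0 : pt (1 / 2) (7 / 6) 1 ∈ C)
    (m1 : pt (4 / 3) (1 / 3) 0 ∈ C)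
    (m2 : pt (2 / 3) 0 0 ∈ C)
    (m3 : pt (1 / 3) (1 / 3) 0 ∈ C)
    : pt x y z ∈ C := by
  refine conv4 hC m0 m1 m2 m3
    (0 * x + 0 * y + 1 * z + 0)
    (1 * x + 1 * y + (-1) * z + (-2 / 3))
    (0 * x + (-3) * y + (5 / 2) * z + 1)
    ((-1) * x + 2 * y + (-5 / 2) * z + (2 / 3))
    ?_ ?_ ?_ ?_ ?_ ?_ ?_ ?_
  · linarith
  · linarith
  · linarith
  · linarith
  · ring
  · ring
  · ring
  · ring

lemma hull_leaf_12 {C : Set (EuclideanSpace ℝ (Fin 3))} (hC : Convex ℝ C) (x y z : ℝ)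
    (a0 : (-63) * x + 51 * y + (-32) * z ≤ (-4))
    (a1 : (-3) * x + (-3) * y + (-16) * z ≤ (-2))
    (a2 : 14 ≤ 21 * x + 51 * y + (-56) * z)
    (a3 : (-2 / 3) ≤ (-1) * x + (-1) * y + 1 * z)
    (m0 : pt (1 / 2) (7 / 6) 1 ∈ C)
    (m1 : pt 0 0 (1 / 8) ∈ C)
    (m2 : pt (1 / 3) (1 / 3) 0 ∈ C)
    (m3 : pt (2 / 3) 0 0 ∈ C)
    : pt x y z ∈ C := by
  refine conv4 hC m0 m1 m2 m3
    ((3 / 19) * x + (3 / 19) * y + (16 / 19) * z + (-2 / 19))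
    ((-24 / 19) * x + (-24 / 19) * y + (24 / 19) * z + (16 / 19))
    ((-21 / 38) * x + (93 / 38) * y + (-56 / 19) * z + (7 / 19))
    ((63 / 38) * x + (-51 / 38) * y + (16 / 19) * z + (-2 / 19))
    ?_ ?_ ?_ ?_ ?_ ?_ ?_ ?_
  · linarith
  · linarith
  · linarith
  · linarith
  · ring
  · ring
  · ring
  · ring

lemma hull_leaf_13 {C : Set (EuclideanSpace ℝ (Fin 3))} (hC : Convex ℝ C) (x y z : ℝ)
    (a0 : 27 * x + (-51) * y + (-64) * z ≤ 19)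
    (a1 : 12 * x + 6 * y + 5 * z ≤ 18)
    (a2 : 14 ≤ 21 * x + 51 * y + (-56) * z)
    (a3 : (-63) * x + 33 * y + (-80) * z ≤ (-73))
    (m0 : pt (1 / 2) (7 / 6) 1 ∈ C)
    (m1 : pt 1 0 (1 / 8) ∈ C)
    (m2 : pt (4 / 3) (1 / 3) 0 ∈ C)
    (m3 : pt (3 / 2) (-5 / 6) 1 ∈ C)
    : pt x y z ∈ C := by
  refine conv4 hC m0 m1 m2 m3
    ((-9 / 43) * x + (17 / 43) * y + (64 / 129) * z + (19 / 129))
    ((-96 / 43) * x + (-48 / 43) * y + (-40 / 43) * z + (144 / 43))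
    ((84 / 43) * x + (42 / 43) * y + (-8 / 43) * z + (-83 / 43))
    ((21 / 43) * x + (-11 / 43) * y + (80 / 129) * z + (-73 / 129))
    ?_ ?_ ?_ ?_ ?_ ?_ ?_ ?_
  · linarith
  · linarith
  · linarith
  · linarith
  · ring
  · ring
  · ring
  · ring

lemma hull_leaf_14 {C : Set (EuclideanSpace ℝ (Fin 3))} (hC : Convex ℝ C) (x y z : ℝ)
    (a0 : 3 * x + (-6) * y + (-8) * z ≤ 2)
    (a1 : 14 ≤ 21 * x + 51 * y + (-56) * z)
    (a2 : (4 / 3) ≤ 2 * x + (-4) * y + 5 * z)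
    (a3 : (-73) ≤ (-63) * x + 33 * y + (-80) * z)
    (m0 : pt (1 / 2) (7 / 6) 1 ∈ C)
    (m1 : pt (2 / 3) 0 0 ∈ C)
    (m2 : pt 1 0 (1 / 8) ∈ C)
    (m3 : pt (4 / 3) (1 / 3) 0 ∈ C)
    : pt x y z ∈ C := by
  refine conv4 hC m0 m1 m2 m3
    ((-6 / 31) * x + (12 / 31) * y + (16 / 31) * z + (4 / 31))
    ((-63 / 31) * x + (33 / 31) * y + (-80 / 31) * z + (73 / 31))
    ((48 / 31) * x + (-96 / 31) * y + (120 / 31) * z + (-32 / 31))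
    ((21 / 31) * x + (51 / 31) * y + (-56 / 31) * z + (-14 / 31))
    ?_ ?_ ?_ ?_ ?_ ?_ ?_ ?_
  · linarith
  · linarith
  · linarith
  · linarith
  · ring
  · ring
  · ring
  · ring

lemma hull_leaf_15 {C : Set (EuclideanSpace ℝ (Fin 3))} (hC : Convex ℝ C) (x y z : ℝ)
    (a0 : 0 * x + 0 * y + (-1) * z ≤ 0)
    (a1 : 12 * x + 6 * y + 5 * z ≤ 18)
    (a2 : (5 / 3) ≤ 1 * x + 1 * y + 0 * z)
    (a3 : (-1) * x + 5 * y + (-2) * z ≤ (10 / 3))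
    (m0 : pt (1 / 2) (7 / 6) 1 ∈ C)
    (m1 : pt (4 / 3) (1 / 3) 0 ∈ C)
    (m2 : pt (5 / 6) (5 / 6) 0 ∈ C)
    (m3 : pt (5 / 3) 1 0 ∈ C)
    : pt x y z ∈ C := by
  refine conv4 hC m0 m1 m2 m3
    (0 * x + 0 * y + 1 * z + 0)
    ((1 / 3) * x + (-5 / 3) * y + (2 / 3) * z + (10 / 9))
    ((-4 / 3) * x + (2 / 3) * y + (-5 / 3) * z + (14 / 9))
    (1 * x + 1 * y + 0 * z + (-5 / 3))
    ?_ ?_ ?_ ?_ ?_ ?_ ?_ ?_
  · linarith
  · linarith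
  · linarith
  · linarith
  · ring
  · ring
  · ring
  · ring

lemma hull_leaf_16 {C : Set (EuclideanSpace ℝ (Fin 3))} (hC : Convex ℝ C) (x y z : ℝ)
    (a0 : (-9) * x + 15 * y + (-8) * z ≤ 5)
    (a1 : (-3) * x + 15 * y + (-16) * z ≤ 10)
    (a2 : 12 * x + 6 * y + 5 * z ≤ 18)
    (a3 : (10 / 3) ≤ (-1) * x + 5 * y + (-2) * z)
    (m0 : pt (1 / 2) (7 / 6) 1 ∈ C)
    (m1 : pt (5 / 6) (5 / 6) 0 ∈ C)
    (m2 : pt 1 1 (1 / 8) ∈ C)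
    (m3 : pt (5 / 3) 1 0 ∈ C)
    : pt x y z ∈ C := by
  refine conv4 hC m0 m1 m2 m3
    ((3 / 10) * x + (-3 / 2) * y + (8 / 5) * z + 1)
    ((3 / 10) * x + (-15 / 2) * y + (8 / 5) * z + 7)
    ((-12 / 5) * x + 12 * y + (-24 / 5) * z + (-8))
    ((9 / 5) * x + (-3) * y + (8 / 5) * z + 1)
    ?_ ?_ ?_ ?_ ?_ ?_ ?_ ?_
  · linarith
  · linarith
  · linarith
  · linarith
  · ring
  · ring
  · ring
  · ring

lemma hull_leaf_17 {C : Set (EuclideanSpace ℝ (Fin 3))} (hC : Convex ℝ C) (x y z : ℝ)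
    (a0 : 0 * x + 0 * y + (-1) * z ≤ 0)
    (a1 : 18 ≤ 12 * x + 6 * y + 5 * z)
    (a2 : 4 * x + (-2) * y + 5 * z ≤ (14 / 3))
    (a3 : (-1) * x + 5 * y + (-2) * z ≤ (10 / 3))
    (m0 : pt (1 / 2) (7 / 6) 1 ∈ C)
    (m1 : pt (4 / 3) (1 / 3) 0 ∈ C)
    (m2 : pt (5 / 6) (5 / 6) 0 ∈ C)
    (m3 : pt (5 / 3) 1 0 ∈ C)
    : pt x y z ∈ C := by
  refine conv4 hC m0 m1 m2 m3
    (0 * x + 0 * y + 1 * z + 0)
    ((1 / 3) * x + (-5 / 3) * y + (2 / 3) * z + (10 / 9))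
    ((-4 / 3) * x + (2 / 3) * y + (-5 / 3) * z + (14 / 9))
    (1 * x + 1 * y + 0 * z + (-5 / 3))
    ?_ ?_ ?_ ?_ ?_ ?_ ?_ ?_
  · linarith
  · linarith
  · linarith
  · linarith
  · ring
  · ring
  · ring
  · ring

lemma hull_leaf_18 {C : Set (EuclideanSpace ℝ (Fin 3))} (hC : Convex ℝ C) (x y z : ℝ)
    (a0 : (-9) * x + 15 * y + (-8) * z ≤ 5)
    (a1 : (-3) * x + 15 * y + (-16) * z ≤ 10)
    (a2 : (-3) * x + 75 * y + (-16) * z ≤ 70)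
    (a3 : 18 ≤ 12 * x + 6 * y + 5 * z)
    (a4 : (10 / 3) ≤ (-1) * x + 5 * y + (-2) * z)
    (m0 : pt (1 / 2) (7 / 6) 1 ∈ C)
    (m1 : pt (5 / 6) (5 / 6) 0 ∈ C)
    (m2 : pt 1 1 (1 / 8) ∈ C)
    (m3 : pt (5 / 3) 1 0 ∈ C)
    : pt x y z ∈ C := by
  refine conv4 hC m0 m1 m2 m3
    ((3 / 10) * x + (-3 / 2) * y + (8 / 5) * z + 1)
    ((3 / 10) * x + (-15 / 2) * y + (8 / 5) * z + 7)
    ((-12 / 5) * x + 12 * y + (-24 / 5) * z + (-8))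
    ((9 / 5) * x + (-3) * y + (8 / 5) * z + 1)
    ?_ ?_ ?_ ?_ ?_ ?_ ?_ ?_
  · linarith
  · linarith
  · linarith
  · linarith
  · ring
  · ring
  · ring
  · ring

lemma hull_leaf_19 {C : Set (EuclideanSpace ℝ (Fin 3))} (hC : Convex ℝ C) (x y z : ℝ)
    (a0 : 0 * x + 0 * y + (-1) * z ≤ 0)
    (a1 : 3 * x + (-3) * y + 5 * z ≤ 3)
    (a2 : (14 / 3) ≤ 4 * x + (-2) * y + 5 * z)
    (a3 : 1 * x + 1 * y + 1 * z ≤ (8 / 3))
    (m0 : pt (1 / 2) (7 / 6) 1 ∈ C)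
    (m1 : pt (4 / 3) (1 / 3) 0 ∈ C)
    (m2 : pt (5 / 3) 1 0 ∈ C)
    (m3 : pt (11 / 6) (5 / 6) 0 ∈ C)
    : pt x y z ∈ C := by
  refine conv4 hC m0 m1 m2 m3
    (0 * x + 0 * y + 1 * z + 0)
    ((-1) * x + (-1) * y + (-1) * z + (8 / 3))
    ((-3) * x + 3 * y + (-5) * z + 3)
    (4 * x + (-2) * y + 5 * z + (-14 / 3))
    ?_ ?_ ?_ ?_ ?_ ?_ ?_ ?_
  · linarith
  · linarith
  · linarith
  · linarith
  · ring
  · ring
  · ring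
  · ring

lemma hull_leaf_20 {C : Set (EuclideanSpace ℝ (Fin 3))} (hC : Convex ℝ C) (x y z : ℝ)
    (a0 : 3 * x + 3 * y + (-8) * z ≤ 8)
    (a1 : 3 * x + 69 * y + (-8) * z ≤ 74)
    (a2 : 6 * x + 3 * y + 7 * z ≤ (27 / 2))
    (a3 : (8 / 3) ≤ 1 * x + 1 * y + 1 * z)
    (m0 : pt (1 / 2) (7 / 6) 1 ∈ C)
    (m1 : pt (5 / 3) 1 0 ∈ C)
    (m2 : pt (11 / 6) (5 / 6) 0 ∈ C)
    (m3 : pt 2 1 (1 / 8) ∈ C)
    : pt x y z ∈ C := by
  refine conv4 hC m0 m1 m2 m3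
    ((-3 / 11) * x + (-3 / 11) * y + (8 / 11) * z + (8 / 11))
    ((-18 / 11) * x + (48 / 11) * y + (-40 / 11) * z + (-7 / 11))
    ((-3 / 11) * x + (-69 / 11) * y + (8 / 11) * z + (74 / 11))
    ((24 / 11) * x + (24 / 11) * y + (24 / 11) * z + (-64 / 11))
    ?_ ?_ ?_ ?_ ?_ ?_ ?_ ?_
  · linarith
  · linarith
  · linarith
  · linarith
  · ring
  · ring
  · ring
  · ring

lemma hull_leaf_21 {C : Set (EuclideanSpace ℝ (Fin 3))} (hC : Convex ℝ C) (x y z : ℝ)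
    (a0 : 3 * x + (-3) * y + (-4) * z ≤ 3)
    (a1 : 18 ≤ 12 * x + 6 * y + 5 * z)
    (a2 : 6 * x + 3 * y + 7 * z ≤ (27 / 2))
    (a3 : 3 ≤ 3 * x + (-3) * y + 5 * z)
    (m0 : pt (1 / 2) (7 / 6) 1 ∈ C)
    (m1 : pt (4 / 3) (1 / 3) 0 ∈ C)
    (m2 : pt (3 / 2) (-5 / 6) 1 ∈ C)
    (m3 : pt (11 / 6) (5 / 6) 0 ∈ C)
    : pt x y z ∈ C := by
  refine conv4 hC m0 m1 m2 m3
    ((-1 / 3) * x + (1 / 3) * y + (4 / 9) * z + (1 / 3))
    ((-4 / 3) * x + (-2 / 3) * y + (-14 / 9) * z + 3)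
    ((1 / 3) * x + (-1 / 3) * y + (5 / 9) * z + (-1 / 3))
    ((4 / 3) * x + (2 / 3) * y + (5 / 9) * z + (-2))
    ?_ ?_ ?_ ?_ ?_ ?_ ?_ ?_
  · linarith
  · linarith
  · linarith
  · linarith
  · ring
  · ring
  · ring
  · ring

lemma hull_leaf_22 {C : Set (EuclideanSpace ℝ (Fin 3))} (hC : Convex ℝ C) (x y z : ℝ)
    (a0 : 27 * x + (-15) * y + (-16) * z ≤ 37)
    (a1 : (27 / 2) ≤ 6 * x + 3 * y + 7 * z)
    (a2 : 42 * x + 21 * y + 68 * z ≤ (227 / 2))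
    (a3 : (-9) * x + 24 * y + (-20) * z ≤ (7 / 2))
    (m0 : pt (1 / 2) (7 / 6) 1 ∈ C)
    (m1 : pt (3 / 2) (-5 / 6) 1 ∈ C)
    (m2 : pt (11 / 6) (5 / 6) 0 ∈ C)
    (m3 : pt 2 1 (1 / 8) ∈ C)
    : pt x y z ∈ C := by
  refine conv4 hC m0 m1 m2 m3
    ((-9 / 19) * x + (5 / 19) * y + (16 / 57) * z + (37 / 57))
    ((3 / 19) * x + (-8 / 19) * y + (20 / 57) * z + (7 / 114))
    ((-42 / 19) * x + (-21 / 19) * y + (-68 / 19) * z + (227 / 38))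
    ((48 / 19) * x + (24 / 19) * y + (56 / 19) * z + (-108 / 19))
    ?_ ?_ ?_ ?_ ?_ ?_ ?_ ?_
  · linarith
  · linarith
  · linarith
  · linarith
  · ring
  · ring
  · ring
  · ring

lemma hull_leaf_23 {C : Set (EuclideanSpace ℝ (Fin 3))} (hC : Convex ℝ C) (x y z : ℝ)
    (a0 : 3 * x + 3 * y + (-8) * z ≤ 8)
    (a1 : 3 * x + 69 * y + (-8) * z ≤ 74)
    (a2 : (27 / 2) ≤ 6 * x + 3 * y + 7 * z)
    (a3 : (7 / 2) ≤ (-9) * x + 24 * y + (-20) * z)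
    (m0 : pt (1 / 2) (7 / 6) 1 ∈ C)
    (m1 : pt (5 / 3) 1 0 ∈ C)
    (m2 : pt (11 / 6) (5 / 6) 0 ∈ C)
    (m3 : pt 2 1 (1 / 8) ∈ C)
    : pt x y z ∈ C := by
  refine conv4 hC m0 m1 m2 m3
    ((-3 / 11) * x + (-3 / 11) * y + (8 / 11) * z + (8 / 11))
    ((-18 / 11) * x + (48 / 11) * y + (-40 / 11) * z + (-7 / 11))
    ((-3 / 11) * x + (-69 / 11) * y + (8 / 11) * z + (74 / 11))
    ((24 / 11) * x + (24 / 11) * y + (24 / 11) * z + (-64 / 11))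
    ?_ ?_ ?_ ?_ ?_ ?_ ?_ ?_
  · linarith
  · linarith
  · linarith
  · linarith
  · ring
  · ring
  · ring
  · ring

lemma hull_leaf_24 {C : Set (EuclideanSpace ℝ (Fin 3))} (hC : Convex ℝ C) (x y z : ℝ)
    (a0 : 151 * x + (-3) * y + 80 * z ≤ 309)
    (a1 : 197 * x + 177 * y + 304 * z ≤ 609)
    (a2 : (227 / 2) ≤ 42 * x + 21 * y + 68 * z)
    (a3 : (-6) * x + (-3) * y + 80 * z ≤ (147 / 2))
    (m0 : pt (1 / 2) (7 / 6) 1 ∈ C)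
    (m1 : pt (3 / 2) (-5 / 6) 1 ∈ C)
    (m2 : pt (3 / 2) 0 (33 / 32) ∈ C)
    (m3 : pt 2 1 (1 / 8) ∈ C)
    : pt x y z ∈ C := by
  refine conv4 hC m0 m1 m2 m3
    ((-151 / 157) * x + (3 / 157) * y + (-80 / 157) * z + (309 / 157))
    ((-197 / 157) * x + (-177 / 157) * y + (-304 / 157) * z + (609 / 157))
    ((336 / 157) * x + (168 / 157) * y + (544 / 157) * z + (-908 / 157))
    ((12 / 157) * x + (6 / 157) * y + (-160 / 157) * z + (147 / 157))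
    ?_ ?_ ?_ ?_ ?_ ?_ ?_ ?_
  · linarith
  · linarith
  · linarith
  · linarith
  · ring
  · ring
  · ring
  · ring

lemma hull_leaf_25 {C : Set (EuclideanSpace ℝ (Fin 3))} (hC : Convex ℝ C) (x y z : ℝ)
    (a0 : 3 * x + 3 * y + 16 * z ≤ 21)
    (a1 : 15 * x + (-3) * y + 80 * z ≤ 105)
    (a2 : 18 ≤ 12 * x + 6 * y + 5 * z)
    (a3 : (147 / 2) ≤ (-6) * x + (-3) * y + 80 * z)
    (m0 : pt (1 / 2) (7 / 6) 1 ∈ C)
    (m1 : pt 1 0 (9 / 8) ∈ C)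
    (m2 : pt (3 / 2) (-5 / 6) 1 ∈ C)
    (m3 : pt (3 / 2) 0 (33 / 32) ∈ C)
    : pt x y z ∈ C := by
  refine conv4 hC m0 m1 m2 m3
    ((-5 / 7) * x + (1 / 7) * y + (-80 / 21) * z + 5)
    ((-4 / 7) * x + (-2 / 7) * y + (160 / 21) * z + (-7))
    ((-1) * x + (-1) * y + (-16 / 3) * z + 7)
    ((16 / 7) * x + (8 / 7) * y + (32 / 21) * z + (-4))
    ?_ ?_ ?_ ?_ ?_ ?_ ?_ ?_
  · linarith
  · linarith
  · linarith
  · linarith
  · ring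
  · ring
  · ring
  · ring

lemma hull_leaf_26 {C : Set (EuclideanSpace ℝ (Fin 3))} (hC : Convex ℝ C) (x y z : ℝ)
    (a0 : 3 * x + 3 * y + 16 * z ≤ 21)
    (a1 : 21 * x + 21 * y + 32 * z ≤ 67)
    (a2 : 23 * x + 3 * y + 16 * z ≤ 51)
    (a3 : 609 ≤ 197 * x + 177 * y + 304 * z)
    (m0 : pt (1 / 2) (7 / 6) 1 ∈ C)
    (m1 : pt (3 / 2) 0 (33 / 32) ∈ C)
    (m2 : pt (3 / 2) (1 / 6) 1 ∈ C)
    (m3 : pt 2 1 (1 / 8) ∈ C)
    : pt x y z ∈ C := by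
  refine conv4 hC m0 m1 m2 m3
    ((-23 / 20) * x + (-3 / 20) * y + (-4 / 5) * z + (51 / 20))
    ((-42 / 5) * x + (-42 / 5) * y + (-64 / 5) * z + (134 / 5))
    ((197 / 20) * x + (177 / 20) * y + (76 / 5) * z + (-609 / 20))
    ((-3 / 10) * x + (-3 / 10) * y + (-8 / 5) * z + (21 / 10))
    ?_ ?_ ?_ ?_ ?_ ?_ ?_ ?_
  · linarith
  · linarith
  · linarith
  · linarith
  · ring
  · ring
  · ring
  · ring

/-- The polytope is contained in every convex set containing its 17 vertices. -/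
lemma hull_all {C : Set (EuclideanSpace ℝ (Fin 3))} (hC : Convex ℝ C)
    (v0 : pt 0 0 (1 / 8) ∈ C)
    (v1 : pt (1 / 3) (1 / 3) 0 ∈ C)
    (v2 : pt (1 / 2) (1 / 6) 1 ∈ C)
    (v3 : pt (1 / 2) 1 (33 / 32) ∈ C)
    (v4 : pt (1 / 2) (7 / 6) 1 ∈ C)
    (v5 : pt (2 / 3) 0 0 ∈ C)
    (v6 : pt (5 / 6) (5 / 6) 0 ∈ C)
    (v7 : pt 1 0 (1 / 8) ∈ C)
    (v8 : pt 1 0 (9 / 8) ∈ C)
    (v9 : pt 1 1 (1 / 8) ∈ C)
    (v10 : pt (4 / 3) (1 / 3) 0 ∈ C)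
    (v11 : pt (3 / 2) (-5 / 6) 1 ∈ C)
    (v12 : pt (3 / 2) 0 (33 / 32) ∈ C)
    (v13 : pt (3 / 2) (1 / 6) 1 ∈ C)
    (v14 : pt (5 / 3) 1 0 ∈ C)
    (v15 : pt (11 / 6) (5 / 6) 0 ∈ C)
    (v16 : pt 2 1 (1 / 8) ∈ C)
    (x y z : ℝ) (h : inK x y z) : pt x y z ∈ C := by
  obtain ⟨g1, g2, g3, g4, g5, g6, g7, g8, g9, g10, g11, g12, g13, g14, g15, g16, g17, g18, g19, g20, g21, g22, g23, g24, g25⟩ := h
  rcases le_total (12 * x + 6 * y + 5 * z) 18 with h0 | h0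
  · rcases le_total (21 * x + 51 * y + (-56) * z) 14 with h1 | h1
    · rcases le_total ((-42) * x + (-21) * y + 52 * z) (13 / 2) with h2 | h2
      · rcases le_total ((-21) * x + 93 * y + (-112) * z) (-14) with h3 | h3
        · rcases le_total (42 * x + 21 * y + (-4) * z) (83 / 2) with h4 | h4
          · rcases le_total (12 * x + 6 * y + (-5) * z) 8 with h5 | h5
            · exact hull_leaf_0 hC x y z g6 h2 h3 h5 v4 v0 v5 v11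
            · exact hull_leaf_1 hC x y z g19 h1 h4 h5 v4 v5 v7 v11
          · exact hull_leaf_2 hC x y z g23 h0 h1 h4 v4 v7 v10 v11
        · exact hull_leaf_3 hC x y z g2 g8 h1 h3 v4 v0 v1 v5
      · rcases le_total (0 * x + 0 * y + 1 * z) 1 with h3 | h3
        · rcases le_total ((-7) * x + 0 * y + 4 * z) (1 / 2) with h4 | h4
          · exact hull_leaf_4 hC x y z g4 h2 h3 h4 v4 v0 v2 v11
          · exact hull_leaf_5 hC x y z g1 g3 h3 h4 v4 v0 v2 v3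
        · rcases le_total ((-1) * x + 0 * y + 4 * z) (7 / 2) with h4 | h4
          · rcases le_total (6 * x + 3 * y + 4 * z) (21 / 2) with h5 | h5
            · exact hull_leaf_6 hC x y z g9 h3 h4 h5 v4 v2 v8 v11
            · exact hull_leaf_7 hC x y z g17 g20 h0 h5 v4 v8 v11 v12
          · rcases le_total ((-1) * x + 0 * y + 0 * z) (-1 / 2) with h5 | h5
            · exact hull_leaf_8 hC x y z g5 g17 h4 h5 v4 v2 v3 v8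
            · exact hull_leaf_9 hC x y z g1 g3 h3 h5 v4 v0 v2 v3
    · rcases le_total (1 * x + 1 * y + 0 * z) (5 / 3) with h2 | h2
      · rcases le_total (2 * x + (-4) * y + 5 * z) (4 / 3) with h3 | h3
        · rcases le_total (0 * x + (-6) * y + 5 * z) (-2) with h4 | h4
          · exact hull_leaf_10 hC x y z g10 g13 h2 h4 v4 v10 v1 v6
          · rcases le_total ((-1) * x + (-1) * y + 1 * z) (-2 / 3) with h5 | h5
            · exact hull_leaf_11 hC x y z g13 h3 h4 h5 v4 v10 v5 v1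
            · exact hull_leaf_12 hC x y z g2 g8 h1 h5 v4 v0 v1 v5
        · rcases le_total ((-63) * x + 33 * y + (-80) * z) (-73) with h4 | h4
          · exact hull_leaf_13 hC x y z g23 h0 h1 h4 v4 v7 v10 v11
          · exact hull_leaf_14 hC x y z g14 h1 h3 h4 v4 v5 v7 v10
      · rcases le_total ((-1) * x + 5 * y + (-2) * z) (10 / 3) with h3 | h3
        · exact hull_leaf_15 hC x y z g13 h0 h2 h3 v4 v10 v6 v14
        · exact hull_leaf_16 hC x y z g7 g11 h0 h3 v4 v6 v9 v14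
  · rcases le_total (6 * x + 3 * y + 7 * z) (27 / 2) with h1 | h1
    · rcases le_total (3 * x + (-3) * y + 5 * z) 3 with h2 | h2
      · rcases le_total (4 * x + (-2) * y + 5 * z) (14 / 3) with h3 | h3
        · rcases le_total ((-1) * x + 5 * y + (-2) * z) (10 / 3) with h4 | h4
          · exact hull_leaf_17 hC x y z g13 h0 h3 h4 v4 v10 v6 v14
          · exact hull_leaf_18 hC x y z g7 g11 g12 h0 h4 v4 v6 v9 v14
        · rcases le_total (1 * x + 1 * y + 1 * z) (8 / 3) with h4 | h4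
          · exact hull_leaf_19 hC x y z g13 h2 h3 h4 v4 v10 v14 v15
          · exact hull_leaf_20 hC x y z g16 g18 h1 h4 v4 v14 v15 v16
      · exact hull_leaf_21 hC x y z g15 h0 h1 h2 v4 v10 v11 v15
    · rcases le_total (197 * x + 177 * y + 304 * z) 609 with h2 | h2
      · rcases le_total (42 * x + 21 * y + 68 * z) (227 / 2) with h3 | h3
        · rcases le_total ((-9) * x + 24 * y + (-20) * z) (7 / 2) with h4 | h4
          · exact hull_leaf_22 hC x y z g24 h1 h3 h4 v4 v11 v15 v16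
          · exact hull_leaf_23 hC x y z g16 g18 h1 h4 v4 v14 v15 v16
        · rcases le_total ((-6) * x + (-3) * y + 80 * z) (147 / 2) with h4 | h4
          · exact hull_leaf_24 hC x y z g25 h2 h3 h4 v4 v11 v12 v16
          · exact hull_leaf_25 hC x y z g17 g20 h0 h4 v4 v8 v11 v12
      · exact hull_leaf_26 hC x y z g17 g21 g22 h2 v4 v12 v13 v16

end Pool.Agent.CoveringBody
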