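import Pool.Agent.CoveringBody.Cover

/-!
Auxiliary linear arithmetic, third part: arbitrarily close to each vertex there are points of
the polytope that lie in no other integer translate.
-/

namespace Pool.Agent.CoveringBody

lemma uniq_0 (t : ℝ) (h0 : 0 < t) (h1 : t ≤ 1) (i j k : ℤ)
    (h : inK (0 + t * (1 / 6) - i) (0 + t * (1 / 12) - j) ((1 / 8) + t * 0 - k)) :
    i = 0 ∧ j = 0 ∧ k = 0 := by
  obtain ⟨⟨bx0, bx1⟩, ⟨by0, by1⟩, ⟨bz0, bz1⟩⟩ := inK_box h
  have li : (-2 : ℤ) ≤ i := by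
    have q : ((-3 : ℤ) : ℝ) < (i : ℝ) := by push_cast; linarith
    have q2 : (-3 : ℤ) < i := by exact_mod_cast q
    omega
  have ui : i ≤ (0 : ℤ) := by
    have q : (i : ℝ) < ((1 : ℤ) : ℝ) := by push_cast; linarith
    have q2 : i < (1 : ℤ) := by exact_mod_cast q
    omega
  have lj : (-1 : ℤ) ≤ j := by
    have q : ((-2 : ℤ) : ℝ) < (j : ℝ) := by push_cast; linarith
    have q2 : (-2 : ℤ) < j := by exact_mod_cast q
    omega
  have uj : j ≤ (0 : ℤ) := by
    have q : (j : ℝ) < ((1 : ℤ) : ℝ) := by push_cast; linarith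
    have q2 : j < (1 : ℤ) := by exact_mod_cast q
    omega
  have lk : (-1 : ℤ) ≤ k := by
    have q : ((-2 : ℤ) : ℝ) < (k : ℝ) := by push_cast; linarith
    have q2 : (-2 : ℤ) < k := by exact_mod_cast q
    omega
  have uk : k ≤ (0 : ℤ) := by
    have q : (k : ℝ) < ((1 : ℤ) : ℝ) := by push_cast; linarith
    have q2 : k < (1 : ℤ) := by exact_mod_cast q
    omega
  clear bx0 bx1 by0 by1 bz0 bz1
  obtain ⟨g1, g2, -, -, -, -, -, -, -, -, g11, -, -, g14, -, g16, g17, -, -, -, -, -, g23, -, -⟩ := h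
  have hi : i = -2 ∨ i = -1 ∨ i = 0 := by clear h0 h1; omega
  have hj : j = -1 ∨ j = 0 := by clear h0 h1; omega
  have hk : k = -1 ∨ k = 0 := by clear h0 h1; omega
  rcases hi with rfl | rfl | rfl <;> rcases hj with rfl | rfl <;> rcases hk with rfl | rfl
  · exfalso; push_cast at g17; linarith only [g17, h0, h1]
  · exfalso; push_cast at g16; linarith only [g16, h0, h1]
  · exfalso; push_cast at g17; linarith only [g17, h0, h1]
  · exfalso; push_cast at g14; linarith only [g14, h0, h1]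
  · exfalso; push_cast at g17; linarith only [g17, h0, h1]
  · exfalso; push_cast at g11; linarith only [g11, h0, h1]
  · exfalso; push_cast at g17; linarith only [g17, h0, h1]
  · exfalso; push_cast at g23; linarith only [g23, h0, h1]
  · exfalso; push_cast at g1; linarith only [g1, h0, h1]
  · exfalso; push_cast at g2; linarith only [g2, h0, h1]
  · exfalso; push_cast at g1; linarith only [g1, h0, h1]
  · exact ⟨rfl, rfl, rfl⟩

lemma uniq_1 (t : ℝ) (h0 : 0 < t) (h1 : t ≤ 1) (i j k : ℤ)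
    (h : inK ((1 / 3) + t * 0 - i) ((1 / 3) + t * (-1 / 6) - j) (0 + t * (1 / 12) - k)) :
    i = 0 ∧ j = 0 ∧ k = 0 := by
  obtain ⟨⟨bx0, bx1⟩, ⟨by0, by1⟩, ⟨bz0, bz1⟩⟩ := inK_box h
  have li : (-1 : ℤ) ≤ i := by
    have q : ((-2 : ℤ) : ℝ) < (i : ℝ) := by push_cast; linarith
    have q2 : (-2 : ℤ) < i := by exact_mod_cast q
    omega
  have ui : i ≤ (0 : ℤ) := by
    have q : (i : ℝ) < ((1 : ℤ) : ℝ) := by push_cast; linarith
    have q2 : i < (1 : ℤ) := by exact_mod_cast q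
    omega
  have lj : (-1 : ℤ) ≤ j := by
    have q : ((-2 : ℤ) : ℝ) < (j : ℝ) := by push_cast; linarith
    have q2 : (-2 : ℤ) < j := by exact_mod_cast q
    omega
  have uj : j ≤ (1 : ℤ) := by
    have q : (j : ℝ) < ((2 : ℤ) : ℝ) := by push_cast; linarith
    have q2 : j < (2 : ℤ) := by exact_mod_cast q
    omega
  have lk : (-1 : ℤ) ≤ k := by
    have q : ((-2 : ℤ) : ℝ) < (k : ℝ) := by push_cast; linarith
    have q2 : (-2 : ℤ) < k := by exact_mod_cast q
    omega
  have uk : k ≤ (0 : ℤ) := by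
    have q : (k : ℝ) < ((1 : ℤ) : ℝ) := by push_cast; linarith
    have q2 : k < (1 : ℤ) := by exact_mod_cast q
    omega
  clear bx0 bx1 by0 by1 bz0 bz1
  obtain ⟨g1, g2, -, g4, -, g6, -, -, -, -, g11, -, -, g14, -, -, g17, -, -, -, -, -, -, -, -⟩ := h
  have hi : i = -1 ∨ i = 0 := by clear h0 h1; omega
  have hj : j = -1 ∨ j = 0 ∨ j = 1 := by clear h0 h1; omega
  have hk : k = -1 ∨ k = 0 := by clear h0 h1; omega
  rcases hi with rfl | rfl <;> rcases hj with rfl | rfl | rfl <;> rcases hk with rfl | rfl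
  · exfalso; push_cast at g17; linarith only [g17, h0, h1]
  · exfalso; push_cast at g11; linarith only [g11, h0, h1]
  · exfalso; push_cast at g17; linarith only [g17, h0, h1]
  · exfalso; push_cast at g14; linarith only [g14, h0, h1]
  · exfalso; push_cast at g4; linarith only [g4, h0, h1]
  · exfalso; push_cast at g6; linarith only [g6, h0, h1]
  · exfalso; push_cast at g1; linarith only [g1, h0, h1]
  · exfalso; push_cast at g2; linarith only [g2, h0, h1]
  · exfalso; push_cast at g1; linarith only [g1, h0, h1]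
  · exact ⟨rfl, rfl, rfl⟩
  · exfalso; push_cast at g1; linarith only [g1, h0, h1]
  · exfalso; push_cast at g4; linarith only [g4, h0, h1]

lemma uniq_2 (t : ℝ) (h0 : 0 < t) (h1 : t ≤ 1) (i j k : ℤ)
    (h : inK ((1 / 2) + t * (1 / 12) - i) ((1 / 6) + t * 0 - j) (1 + t * (-1 / 12) - k)) :
    i = 0 ∧ j = 0 ∧ k = 0 := by
  obtain ⟨⟨bx0, bx1⟩, ⟨by0, by1⟩, ⟨bz0, bz1⟩⟩ := inK_box h
  have li : (-1 : ℤ) ≤ i := by
    have q : ((-2 : ℤ) : ℝ) < (i : ℝ) := by push_cast; linarith
    have q2 : (-2 : ℤ) < i := by exact_mod_cast q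
    omega
  have ui : i ≤ (0 : ℤ) := by
    have q : (i : ℝ) < ((1 : ℤ) : ℝ) := by push_cast; linarith
    have q2 : i < (1 : ℤ) := by exact_mod_cast q
    omega
  have lj : (-1 : ℤ) ≤ j := by
    have q : ((-2 : ℤ) : ℝ) < (j : ℝ) := by push_cast; linarith
    have q2 : (-2 : ℤ) < j := by exact_mod_cast q
    omega
  have uj : j ≤ (1 : ℤ) := by
    have q : (j : ℝ) < ((2 : ℤ) : ℝ) := by push_cast; linarith
    have q2 : j < (2 : ℤ) := by exact_mod_cast q
    omega
  have lk : (0 : ℤ) ≤ k := by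
    have q : ((-1 : ℤ) : ℝ) < (k : ℝ) := by push_cast; linarith
    have q2 : (-1 : ℤ) < k := by exact_mod_cast q
    omega
  have uk : k ≤ (1 : ℤ) := by
    have q : (k : ℝ) < ((2 : ℤ) : ℝ) := by push_cast; linarith
    have q2 : k < (2 : ℤ) := by exact_mod_cast q
    omega
  clear bx0 bx1 by0 by1 bz0 bz1
  obtain ⟨-, g2, -, g4, -, g6, -, g8, -, -, g11, g12, g13, -, -, -, g17, -, -, -, -, g22, -, -, -⟩ := h
  have hi : i = -1 ∨ i = 0 := by clear h0 h1; omega
  have hj : j = -1 ∨ j = 0 ∨ j = 1 := by clear h0 h1; omega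
  have hk : k = 0 ∨ k = 1 := by clear h0 h1; omega
  rcases hi with rfl | rfl <;> rcases hj with rfl | rfl | rfl <;> rcases hk with rfl | rfl
  · exfalso; push_cast at g17; linarith only [g17, h0, h1]
  · exfalso; push_cast at g11; linarith only [g11, h0, h1]
  · exfalso; push_cast at g22; linarith only [g22, h0, h1]
  · exfalso; push_cast at g13; linarith only [g13, h0, h1]
  · exfalso; push_cast at g6; linarith only [g6, h0, h1]
  · exfalso; push_cast at g6; linarith only [g6, h0, h1]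
  · exfalso; push_cast at g12; linarith only [g12, h0, h1]
  · exfalso; push_cast at g2; linarith only [g2, h0, h1]
  · exact ⟨rfl, rfl, rfl⟩
  · exfalso; push_cast at g8; linarith only [g8, h0, h1]
  · exfalso; push_cast at g4; linarith only [g4, h0, h1]
  · exfalso; push_cast at g4; linarith only [g4, h0, h1]

lemma uniq_3 (t : ℝ) (h0 : 0 < t) (h1 : t ≤ 1) (i j k : ℤ)
    (h : inK ((1 / 2) + t * (1 / 12) - i) (1 + t * 0 - j) ((33 / 32) + t * (-1 / 12) - k)) :
    i = 0 ∧ j = 0 ∧ k = 0 := by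
  obtain ⟨⟨bx0, bx1⟩, ⟨by0, by1⟩, ⟨bz0, bz1⟩⟩ := inK_box h
  have li : (-1 : ℤ) ≤ i := by
    have q : ((-2 : ℤ) : ℝ) < (i : ℝ) := by push_cast; linarith
    have q2 : (-2 : ℤ) < i := by exact_mod_cast q
    omega
  have ui : i ≤ (0 : ℤ) := by
    have q : (i : ℝ) < ((1 : ℤ) : ℝ) := by push_cast; linarith
    have q2 : i < (1 : ℤ) := by exact_mod_cast q
    omega
  have lj : (0 : ℤ) ≤ j := by
    have q : ((-1 : ℤ) : ℝ) < (j : ℝ) := by push_cast; linarith
    have q2 : (-1 : ℤ) < j := by exact_mod_cast q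
    omega
  have uj : j ≤ (1 : ℤ) := by
    have q : (j : ℝ) < ((2 : ℤ) : ℝ) := by push_cast; linarith
    have q2 : j < (2 : ℤ) := by exact_mod_cast q
    omega
  have lk : (0 : ℤ) ≤ k := by
    have q : ((-1 : ℤ) : ℝ) < (k : ℝ) := by push_cast; linarith
    have q2 : (-1 : ℤ) < k := by exact_mod_cast q
    omega
  have uk : k ≤ (1 : ℤ) := by
    have q : (k : ℝ) < ((2 : ℤ) : ℝ) := by push_cast; linarith
    have q2 : k < (2 : ℤ) := by exact_mod_cast q
    omega
  clear bx0 bx1 by0 by1 bz0 bz1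
  obtain ⟨-, g2, -, g4, -, g6, -, -, -, -, g11, -, -, g14, -, -, g17, -, -, -, -, g22, -, -, -⟩ := h
  have hi : i = -1 ∨ i = 0 := by clear h0 h1; omega
  have hj : j = 0 ∨ j = 1 := by clear h0 h1; omega
  have hk : k = 0 ∨ k = 1 := by clear h0 h1; omega
  rcases hi with rfl | rfl <;> rcases hj with rfl | rfl <;> rcases hk with rfl | rfl
  · exfalso; push_cast at g17; linarith only [g17, h0, h1]
  · exfalso; push_cast at g11; linarith only [g11, h0, h1]
  · exfalso; push_cast at g22; linarith only [g22, h0, h1]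
  · exfalso; push_cast at g14; linarith only [g14, h0, h1]
  · exact ⟨rfl, rfl, rfl⟩
  · exfalso; push_cast at g2; linarith only [g2, h0, h1]
  · exfalso; push_cast at g4; linarith only [g4, h0, h1]
  · exfalso; push_cast at g6; linarith only [g6, h0, h1]

lemma uniq_4 (t : ℝ) (h0 : 0 < t) (h1 : t ≤ 1) (i j k : ℤ)
    (h : inK ((1 / 2) + t * (1 / 12) - i) ((7 / 6) + t * (-1 / 6) - j) (1 + t * 0 - k)) :
    i = 0 ∧ j = 0 ∧ k = 0 := by
  obtain ⟨⟨bx0, bx1⟩, ⟨by0, by1⟩, ⟨bz0, bz1⟩⟩ := inK_box h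
  have li : (-1 : ℤ) ≤ i := by
    have q : ((-2 : ℤ) : ℝ) < (i : ℝ) := by push_cast; linarith
    have q2 : (-2 : ℤ) < i := by exact_mod_cast q
    omega
  have ui : i ≤ (0 : ℤ) := by
    have q : (i : ℝ) < ((1 : ℤ) : ℝ) := by push_cast; linarith
    have q2 : i < (1 : ℤ) := by exact_mod_cast q
    omega
  have lj : (0 : ℤ) ≤ j := by
    have q : ((-1 : ℤ) : ℝ) < (j : ℝ) := by push_cast; linarith
    have q2 : (-1 : ℤ) < j := by exact_mod_cast q
    omega
  have uj : j ≤ (2 : ℤ) := by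
    have q : (j : ℝ) < ((3 : ℤ) : ℝ) := by push_cast; linarith
    have q2 : j < (3 : ℤ) := by exact_mod_cast q
    omega
  have lk : (0 : ℤ) ≤ k := by
    have q : ((-1 : ℤ) : ℝ) < (k : ℝ) := by push_cast; linarith
    have q2 : (-1 : ℤ) < k := by exact_mod_cast q
    omega
  have uk : k ≤ (1 : ℤ) := by
    have q : (k : ℝ) < ((2 : ℤ) : ℝ) := by push_cast; linarith
    have q2 : k < (2 : ℤ) := by exact_mod_cast q
    omega
  clear bx0 bx1 by0 by1 bz0 bz1
  obtain ⟨-, g2, -, g4, -, g6, -, g8, -, -, g11, -, -, g14, -, -, g17, -, -, -, -, g22, -, -, -⟩ := h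
  have hi : i = -1 ∨ i = 0 := by clear h0 h1; omega
  have hj : j = 0 ∨ j = 1 ∨ j = 2 := by clear h0 h1; omega
  have hk : k = 0 ∨ k = 1 := by clear h0 h1; omega
  rcases hi with rfl | rfl <;> rcases hj with rfl | rfl | rfl <;> rcases hk with rfl | rfl
  · exfalso; push_cast at g17; linarith only [g17, h0, h1]
  · exfalso; push_cast at g11; linarith only [g11, h0, h1]
  · exfalso; push_cast at g22; linarith only [g22, h0, h1]
  · exfalso; push_cast at g14; linarith only [g14, h0, h1]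
  · exfalso; push_cast at g4; linarith only [g4, h0, h1]
  · exfalso; push_cast at g6; linarith only [g6, h0, h1]
  · exact ⟨rfl, rfl, rfl⟩
  · exfalso; push_cast at g2; linarith only [g2, h0, h1]
  · exfalso; push_cast at g4; linarith only [g4, h0, h1]
  · exfalso; push_cast at g8; linarith only [g8, h0, h1]
  · exfalso; push_cast at g4; linarith only [g4, h0, h1]
  · exfalso; push_cast at g4; linarith only [g4, h0, h1]

lemma uniq_5 (t : ℝ) (h0 : 0 < t) (h1 : t ≤ 1) (i j k : ℤ)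
    (h : inK ((2 / 3) + t * 0 - i) (0 + t * (1 / 12) - j) (0 + t * (1 / 12) - k)) :
    i = 0 ∧ j = 0 ∧ k = 0 := by
  obtain ⟨⟨bx0, bx1⟩, ⟨by0, by1⟩, ⟨bz0, bz1⟩⟩ := inK_box h
  have li : (-1 : ℤ) ≤ i := by
    have q : ((-2 : ℤ) : ℝ) < (i : ℝ) := by push_cast; linarith
    have q2 : (-2 : ℤ) < i := by exact_mod_cast q
    omega
  have ui : i ≤ (0 : ℤ) := by
    have q : (i : ℝ) < ((1 : ℤ) : ℝ) := by push_cast; linarith
    have q2 : i < (1 : ℤ) := by exact_mod_cast q
    omega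
  have lj : (-1 : ℤ) ≤ j := by
    have q : ((-2 : ℤ) : ℝ) < (j : ℝ) := by push_cast; linarith
    have q2 : (-2 : ℤ) < j := by exact_mod_cast q
    omega
  have uj : j ≤ (0 : ℤ) := by
    have q : (j : ℝ) < ((1 : ℤ) : ℝ) := by push_cast; linarith
    have q2 : j < (1 : ℤ) := by exact_mod_cast q
    omega
  have lk : (-1 : ℤ) ≤ k := by
    have q : ((-2 : ℤ) : ℝ) < (k : ℝ) := by push_cast; linarith
    have q2 : (-2 : ℤ) < k := by exact_mod_cast q
    omega
  have uk : k ≤ (0 : ℤ) := by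
    have q : (k : ℝ) < ((1 : ℤ) : ℝ) := by push_cast; linarith
    have q2 : k < (1 : ℤ) := by exact_mod_cast q
    omega
  clear bx0 bx1 by0 by1 bz0 bz1
  obtain ⟨-, g2, -, -, -, -, -, -, g9, -, -, g12, -, g14, -, -, g17, -, -, -, -, -, -, -, -⟩ := h
  have hi : i = -1 ∨ i = 0 := by clear h0 h1; omega
  have hj : j = -1 ∨ j = 0 := by clear h0 h1; omega
  have hk : k = -1 ∨ k = 0 := by clear h0 h1; omega
  rcases hi with rfl | rfl <;> rcases hj with rfl | rfl <;> rcases hk with rfl | rfl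
  · exfalso; push_cast at g17; linarith only [g17, h0, h1]
  · exfalso; push_cast at g12; linarith only [g12, h0, h1]
  · exfalso; push_cast at g17; linarith only [g17, h0, h1]
  · exfalso; push_cast at g14; linarith only [g14, h0, h1]
  · exfalso; push_cast at g17; linarith only [g17, h0, h1]
  · exfalso; push_cast at g2; linarith only [g2, h0, h1]
  · exfalso; push_cast at g9; linarith only [g9, h0, h1]
  · exact ⟨rfl, rfl, rfl⟩

lemma uniq_6 (t : ℝ) (h0 : 0 < t) (h1 : t ≤ 1) (i j k : ℤ)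
    (h : inK ((5 / 6) + t * (1 / 12) - i) ((5 / 6) + t * 0 - j) (0 + t * (1 / 12) - k)) :
    i = 0 ∧ j = 0 ∧ k = 0 := by
  obtain ⟨⟨bx0, bx1⟩, ⟨by0, by1⟩, ⟨bz0, bz1⟩⟩ := inK_box h
  have li : (-1 : ℤ) ≤ i := by
    have q : ((-2 : ℤ) : ℝ) < (i : ℝ) := by push_cast; linarith
    have q2 : (-2 : ℤ) < i := by exact_mod_cast q
    omega
  have ui : i ≤ (0 : ℤ) := by
    have q : (i : ℝ) < ((1 : ℤ) : ℝ) := by push_cast; linarith
    have q2 : i < (1 : ℤ) := by exact_mod_cast q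
    omega
  have lj : (0 : ℤ) ≤ j := by
    have q : ((-1 : ℤ) : ℝ) < (j : ℝ) := by push_cast; linarith
    have q2 : (-1 : ℤ) < j := by exact_mod_cast q
    omega
  have uj : j ≤ (1 : ℤ) := by
    have q : (j : ℝ) < ((2 : ℤ) : ℝ) := by push_cast; linarith
    have q2 : j < (2 : ℤ) := by exact_mod_cast q
    omega
  have lk : (-1 : ℤ) ≤ k := by
    have q : ((-2 : ℤ) : ℝ) < (k : ℝ) := by push_cast; linarith
    have q2 : (-2 : ℤ) < k := by exact_mod_cast q
    omega
  have uk : k ≤ (0 : ℤ) := by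
    have q : (k : ℝ) < ((1 : ℤ) : ℝ) := by push_cast; linarith
    have q2 : k < (1 : ℤ) := by exact_mod_cast q
    omega
  clear bx0 bx1 by0 by1 bz0 bz1
  obtain ⟨-, -, -, -, -, g6, -, -, g9, -, -, -, -, g14, -, -, g17, -, -, -, -, -, -, g24, -⟩ := h
  have hi : i = -1 ∨ i = 0 := by clear h0 h1; omega
  have hj : j = 0 ∨ j = 1 := by clear h0 h1; omega
  have hk : k = -1 ∨ k = 0 := by clear h0 h1; omega
  rcases hi with rfl | rfl <;> rcases hj with rfl | rfl <;> rcases hk with rfl | rfl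
  · exfalso; push_cast at g17; linarith only [g17, h0, h1]
  · exfalso; push_cast at g24; linarith only [g24, h0, h1]
  · exfalso; push_cast at g17; linarith only [g17, h0, h1]
  · exfalso; push_cast at g14; linarith only [g14, h0, h1]
  · exfalso; push_cast at g17; linarith only [g17, h0, h1]
  · exact ⟨rfl, rfl, rfl⟩
  · exfalso; push_cast at g9; linarith only [g9, h0, h1]
  · exfalso; push_cast at g6; linarith only [g6, h0, h1]

lemma uniq_7 (t : ℝ) (h0 : 0 < t) (h1 : t ≤ 1) (i j k : ℤ)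
    (h : inK (1 + t * 0 - i) (0 + t * (1 / 12) - j) ((1 / 8) + t * 0 - k)) :
    i = 0 ∧ j = 0 ∧ k = 0 := by
  obtain ⟨⟨bx0, bx1⟩, ⟨by0, by1⟩, ⟨bz0, bz1⟩⟩ := inK_box h
  have li : (-1 : ℤ) ≤ i := by
    have q : ((-2 : ℤ) : ℝ) < (i : ℝ) := by push_cast; linarith
    have q2 : (-2 : ℤ) < i := by exact_mod_cast q
    omega
  have ui : i ≤ (1 : ℤ) := by
    have q : (i : ℝ) < ((2 : ℤ) : ℝ) := by push_cast; linarith
    have q2 : i < (2 : ℤ) := by exact_mod_cast q
    omega
  have lj : (-1 : ℤ) ≤ j := by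
    have q : ((-2 : ℤ) : ℝ) < (j : ℝ) := by push_cast; linarith
    have q2 : (-2 : ℤ) < j := by exact_mod_cast q
    omega
  have uj : j ≤ (0 : ℤ) := by
    have q : (j : ℝ) < ((1 : ℤ) : ℝ) := by push_cast; linarith
    have q2 : j < (1 : ℤ) := by exact_mod_cast q
    omega
  have lk : (-1 : ℤ) ≤ k := by
    have q : ((-2 : ℤ) : ℝ) < (k : ℝ) := by push_cast; linarith
    have q2 : (-2 : ℤ) < k := by exact_mod_cast q
    omega
  have uk : k ≤ (0 : ℤ) := by
    have q : (k : ℝ) < ((1 : ℤ) : ℝ) := by push_cast; linarith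
    have q2 : k < (1 : ℤ) := by exact_mod_cast q
    omega
  clear bx0 bx1 by0 by1 bz0 bz1
  obtain ⟨g1, g2, -, -, -, -, g7, -, -, -, -, -, -, g14, -, g16, g17, -, -, -, -, -, -, -, -⟩ := h
  have hi : i = -1 ∨ i = 0 ∨ i = 1 := by clear h0 h1; omega
  have hj : j = -1 ∨ j = 0 := by clear h0 h1; omega
  have hk : k = -1 ∨ k = 0 := by clear h0 h1; omega
  rcases hi with rfl | rfl | rfl <;> rcases hj with rfl | rfl <;> rcases hk with rfl | rfl
  · exfalso; push_cast at g17; linarith only [g17, h0, h1]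
  · exfalso; push_cast at g16; linarith only [g16, h0, h1]
  · exfalso; push_cast at g17; linarith only [g17, h0, h1]
  · exfalso; push_cast at g14; linarith only [g14, h0, h1]
  · exfalso; push_cast at g17; linarith only [g17, h0, h1]
  · exfalso; push_cast at g7; linarith only [g7, h0, h1]
  · exfalso; push_cast at g17; linarith only [g17, h0, h1]
  · exact ⟨rfl, rfl, rfl⟩
  · exfalso; push_cast at g1; linarith only [g1, h0, h1]
  · exfalso; push_cast at g2; linarith only [g2, h0, h1]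
  · exfalso; push_cast at g1; linarith only [g1, h0, h1]
  · exfalso; push_cast at g2; linarith only [g2, h0, h1]

lemma uniq_8 (t : ℝ) (h0 : 0 < t) (h1 : t ≤ 1) (i j k : ℤ)
    (h : inK (1 + t * 0 - i) (0 + t * 0 - j) ((9 / 8) + t * (-1 / 12) - k)) :
    i = 0 ∧ j = 0 ∧ k = 0 := by
  obtain ⟨⟨bx0, bx1⟩, ⟨by0, by1⟩, ⟨bz0, bz1⟩⟩ := inK_box h
  have li : (-1 : ℤ) ≤ i := by
    have q : ((-2 : ℤ) : ℝ) < (i : ℝ) := by push_cast; linarith
    have q2 : (-2 : ℤ) < i := by exact_mod_cast q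
    omega
  have ui : i ≤ (1 : ℤ) := by
    have q : (i : ℝ) < ((2 : ℤ) : ℝ) := by push_cast; linarith
    have q2 : i < (2 : ℤ) := by exact_mod_cast q
    omega
  have lj : (-1 : ℤ) ≤ j := by
    have q : ((-2 : ℤ) : ℝ) < (j : ℝ) := by push_cast; linarith
    have q2 : (-2 : ℤ) < j := by exact_mod_cast q
    omega
  have uj : j ≤ (0 : ℤ) := by
    have q : (j : ℝ) < ((1 : ℤ) : ℝ) := by push_cast; linarith
    have q2 : j < (1 : ℤ) := by exact_mod_cast q
    omega
  have lk : (0 : ℤ) ≤ k := by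
    have q : ((-1 : ℤ) : ℝ) < (k : ℝ) := by push_cast; linarith
    have q2 : (-1 : ℤ) < k := by exact_mod_cast q
    omega
  have uk : k ≤ (1 : ℤ) := by
    have q : (k : ℝ) < ((2 : ℤ) : ℝ) := by push_cast; linarith
    have q2 : k < (2 : ℤ) := by exact_mod_cast q
    omega
  clear bx0 bx1 by0 by1 bz0 bz1
  obtain ⟨g1, g2, -, -, -, -, g7, -, -, -, -, -, -, g14, -, g16, g17, -, -, -, -, -, -, -, -⟩ := h
  have hi : i = -1 ∨ i = 0 ∨ i = 1 := by clear h0 h1; omega
  have hj : j = -1 ∨ j = 0 := by clear h0 h1; omega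
  have hk : k = 0 ∨ k = 1 := by clear h0 h1; omega
  rcases hi with rfl | rfl | rfl <;> rcases hj with rfl | rfl <;> rcases hk with rfl | rfl
  · exfalso; push_cast at g17; linarith only [g17, h0, h1]
  · exfalso; push_cast at g16; linarith only [g16, h0, h1]
  · exfalso; push_cast at g17; linarith only [g17, h0, h1]
  · exfalso; push_cast at g14; linarith only [g14, h0, h1]
  · exfalso; push_cast at g17; linarith only [g17, h0, h1]
  · exfalso; push_cast at g7; linarith only [g7, h0, h1]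
  · exact ⟨rfl, rfl, rfl⟩
  · exfalso; push_cast at g14; linarith only [g14, h0, h1]
  · exfalso; push_cast at g1; linarith only [g1, h0, h1]
  · exfalso; push_cast at g2; linarith only [g2, h0, h1]
  · exfalso; push_cast at g1; linarith only [g1, h0, h1]
  · exfalso; push_cast at g2; linarith only [g2, h0, h1]

lemma uniq_9 (t : ℝ) (h0 : 0 < t) (h1 : t ≤ 1) (i j k : ℤ)
    (h : inK (1 + t * 0 - i) (1 + t * (-1 / 12) - j) ((1 / 8) + t * 0 - k)) :
    i = 0 ∧ j = 0 ∧ k = 0 := by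
  obtain ⟨⟨bx0, bx1⟩, ⟨by0, by1⟩, ⟨bz0, bz1⟩⟩ := inK_box h
  have li : (-1 : ℤ) ≤ i := by
    have q : ((-2 : ℤ) : ℝ) < (i : ℝ) := by push_cast; linarith
    have q2 : (-2 : ℤ) < i := by exact_mod_cast q
    omega
  have ui : i ≤ (1 : ℤ) := by
    have q : (i : ℝ) < ((2 : ℤ) : ℝ) := by push_cast; linarith
    have q2 : i < (2 : ℤ) := by exact_mod_cast q
    omega
  have lj : (0 : ℤ) ≤ j := by
    have q : ((-1 : ℤ) : ℝ) < (j : ℝ) := by push_cast; linarith
    have q2 : (-1 : ℤ) < j := by exact_mod_cast q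
    omega
  have uj : j ≤ (1 : ℤ) := by
    have q : (j : ℝ) < ((2 : ℤ) : ℝ) := by push_cast; linarith
    have q2 : j < (2 : ℤ) := by exact_mod_cast q
    omega
  have lk : (-1 : ℤ) ≤ k := by
    have q : ((-2 : ℤ) : ℝ) < (k : ℝ) := by push_cast; linarith
    have q2 : (-2 : ℤ) < k := by exact_mod_cast q
    omega
  have uk : k ≤ (0 : ℤ) := by
    have q : (k : ℝ) < ((1 : ℤ) : ℝ) := by push_cast; linarith
    have q2 : k < (1 : ℤ) := by exact_mod_cast q
    omega
  clear bx0 bx1 by0 by1 bz0 bz1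
  obtain ⟨g1, g2, -, -, g5, -, -, -, -, -, -, -, -, g14, -, -, g17, -, -, -, -, -, -, g24, -⟩ := h
  have hi : i = -1 ∨ i = 0 ∨ i = 1 := by clear h0 h1; omega
  have hj : j = 0 ∨ j = 1 := by clear h0 h1; omega
  have hk : k = -1 ∨ k = 0 := by clear h0 h1; omega
  rcases hi with rfl | rfl | rfl <;> rcases hj with rfl | rfl <;> rcases hk with rfl | rfl
  · exfalso; push_cast at g17; linarith only [g17, h0, h1]
  · exfalso; push_cast at g24; linarith only [g24, h0, h1]
  · exfalso; push_cast at g17; linarith only [g17, h0, h1]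
  · exfalso; push_cast at g14; linarith only [g14, h0, h1]
  · exfalso; push_cast at g17; linarith only [g17, h0, h1]
  · exact ⟨rfl, rfl, rfl⟩
  · exfalso; push_cast at g5; linarith only [g5, h0, h1]
  · exfalso; push_cast at g14; linarith only [g14, h0, h1]
  · exfalso; push_cast at g1; linarith only [g1, h0, h1]
  · exfalso; push_cast at g2; linarith only [g2, h0, h1]
  · exfalso; push_cast at g1; linarith only [g1, h0, h1]
  · exfalso; push_cast at g1; linarith only [g1, h0, h1]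

lemma uniq_10 (t : ℝ) (h0 : 0 < t) (h1 : t ≤ 1) (i j k : ℤ)
    (h : inK ((4 / 3) + t * (-1 / 12) - i) ((1 / 3) + t * 0 - j) (0 + t * (1 / 12) - k)) :
    i = 0 ∧ j = 0 ∧ k = 0 := by
  obtain ⟨⟨bx0, bx1⟩, ⟨by0, by1⟩, ⟨bz0, bz1⟩⟩ := inK_box h
  have li : (0 : ℤ) ≤ i := by
    have q : ((-1 : ℤ) : ℝ) < (i : ℝ) := by push_cast; linarith
    have q2 : (-1 : ℤ) < i := by exact_mod_cast q
    omega
  have ui : i ≤ (1 : ℤ) := by
    have q : (i : ℝ) < ((2 : ℤ) : ℝ) := by push_cast; linarith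
    have q2 : i < (2 : ℤ) := by exact_mod_cast q
    omega
  have lj : (0 : ℤ) ≤ j := by
    have q : ((-1 : ℤ) : ℝ) < (j : ℝ) := by push_cast; linarith
    have q2 : (-1 : ℤ) < j := by exact_mod_cast q
    omega
  have uj : j ≤ (1 : ℤ) := by
    have q : (j : ℝ) < ((2 : ℤ) : ℝ) := by push_cast; linarith
    have q2 : j < (2 : ℤ) := by exact_mod_cast q
    omega
  have lk : (-1 : ℤ) ≤ k := by
    have q : ((-2 : ℤ) : ℝ) < (k : ℝ) := by push_cast; linarith
    have q2 : (-2 : ℤ) < k := by exact_mod_cast q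
    omega
  have uk : k ≤ (0 : ℤ) := by
    have q : (k : ℝ) < ((1 : ℤ) : ℝ) := by push_cast; linarith
    have q2 : k < (1 : ℤ) := by exact_mod_cast q
    omega
  clear bx0 bx1 by0 by1 bz0 bz1
  obtain ⟨g1, g2, -, g4, -, g6, -, -, -, -, -, -, -, -, -, -, g17, -, -, -, -, -, -, -, -⟩ := h
  have hi : i = 0 ∨ i = 1 := by clear h0 h1; omega
  have hj : j = 0 ∨ j = 1 := by clear h0 h1; omega
  have hk : k = -1 ∨ k = 0 := by clear h0 h1; omega
  rcases hi with rfl | rfl <;> rcases hj with rfl | rfl <;> rcases hk with rfl | rfl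
  · exfalso; push_cast at g17; linarith only [g17, h0, h1]
  · exact ⟨rfl, rfl, rfl⟩
  · exfalso; push_cast at g4; linarith only [g4, h0, h1]
  · exfalso; push_cast at g6; linarith only [g6, h0, h1]
  · exfalso; push_cast at g1; linarith only [g1, h0, h1]
  · exfalso; push_cast at g2; linarith only [g2, h0, h1]
  · exfalso; push_cast at g1; linarith only [g1, h0, h1]
  · exfalso; push_cast at g4; linarith only [g4, h0, h1]

lemma uniq_11 (t : ℝ) (h0 : 0 < t) (h1 : t ≤ 1) (i j k : ℤ)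
    (h : inK ((3 / 2) + t * (-1 / 12) - i) ((-5 / 6) + t * (1 / 4) - j) (1 + t * (-1 / 12) - k)) :
    i = 0 ∧ j = 0 ∧ k = 0 := by
  obtain ⟨⟨bx0, bx1⟩, ⟨by0, by1⟩, ⟨bz0, bz1⟩⟩ := inK_box h
  have li : (0 : ℤ) ≤ i := by
    have q : ((-1 : ℤ) : ℝ) < (i : ℝ) := by push_cast; linarith
    have q2 : (-1 : ℤ) < i := by exact_mod_cast q
    omega
  have ui : i ≤ (1 : ℤ) := by
    have q : (i : ℝ) < ((2 : ℤ) : ℝ) := by push_cast; linarith
    have q2 : i < (2 : ℤ) := by exact_mod_cast q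
    omega
  have lj : (-2 : ℤ) ≤ j := by
    have q : ((-3 : ℤ) : ℝ) < (j : ℝ) := by push_cast; linarith
    have q2 : (-3 : ℤ) < j := by exact_mod_cast q
    omega
  have uj : j ≤ (0 : ℤ) := by
    have q : (j : ℝ) < ((1 : ℤ) : ℝ) := by push_cast; linarith
    have q2 : j < (1 : ℤ) := by exact_mod_cast q
    omega
  have lk : (0 : ℤ) ≤ k := by
    have q : ((-1 : ℤ) : ℝ) < (k : ℝ) := by push_cast; linarith
    have q2 : (-1 : ℤ) < k := by exact_mod_cast q
    omega
  have uk : k ≤ (1 : ℤ) := by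
    have q : (k : ℝ) < ((2 : ℤ) : ℝ) := by push_cast; linarith
    have q2 : k < (2 : ℤ) := by exact_mod_cast q
    omega
  clear bx0 bx1 by0 by1 bz0 bz1
  obtain ⟨g1, g2, -, g4, -, g6, -, g8, -, -, g11, -, g13, -, -, -, g17, -, -, -, g21, -, -, -, -⟩ := h
  have hi : i = 0 ∨ i = 1 := by clear h0 h1; omega
  have hj : j = -2 ∨ j = -1 ∨ j = 0 := by clear h0 h1; omega
  have hk : k = 0 ∨ k = 1 := by clear h0 h1; omega
  rcases hi with rfl | rfl <;> rcases hj with rfl | rfl | rfl <;> rcases hk with rfl | rfl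
  · exfalso; push_cast at g17; linarith only [g17, h0, h1]
  · exfalso; push_cast at g11; linarith only [g11, h0, h1]
  · exfalso; push_cast at g21; linarith only [g21, h0, h1]
  · exfalso; push_cast at g13; linarith only [g13, h0, h1]
  · exact ⟨rfl, rfl, rfl⟩
  · exfalso; push_cast at g6; linarith only [g6, h0, h1]
  · exfalso; push_cast at g2; linarith only [g2, h0, h1]
  · exfalso; push_cast at g2; linarith only [g2, h0, h1]
  · exfalso; push_cast at g1; linarith only [g1, h0, h1]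
  · exfalso; push_cast at g8; linarith only [g8, h0, h1]
  · exfalso; push_cast at g1; linarith only [g1, h0, h1]
  · exfalso; push_cast at g4; linarith only [g4, h0, h1]

lemma uniq_12 (t : ℝ) (h0 : 0 < t) (h1 : t ≤ 1) (i j k : ℤ)
    (h : inK ((3 / 2) + t * (-1 / 12) - i) (0 + t * 0 - j) ((33 / 32) + t * 0 - k)) :
    i = 0 ∧ j = 0 ∧ k = 0 := by
  obtain ⟨⟨bx0, bx1⟩, ⟨by0, by1⟩, ⟨bz0, bz1⟩⟩ := inK_box h
  have li : (0 : ℤ) ≤ i := by
    have q : ((-1 : ℤ) : ℝ) < (i : ℝ) := by push_cast; linarith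
    have q2 : (-1 : ℤ) < i := by exact_mod_cast q
    omega
  have ui : i ≤ (1 : ℤ) := by
    have q : (i : ℝ) < ((2 : ℤ) : ℝ) := by push_cast; linarith
    have q2 : i < (2 : ℤ) := by exact_mod_cast q
    omega
  have lj : (-1 : ℤ) ≤ j := by
    have q : ((-2 : ℤ) : ℝ) < (j : ℝ) := by push_cast; linarith
    have q2 : (-2 : ℤ) < j := by exact_mod_cast q
    omega
  have uj : j ≤ (0 : ℤ) := by
    have q : (j : ℝ) < ((1 : ℤ) : ℝ) := by push_cast; linarith
    have q2 : j < (1 : ℤ) := by exact_mod_cast q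
    omega
  have lk : (0 : ℤ) ≤ k := by
    have q : ((-1 : ℤ) : ℝ) < (k : ℝ) := by push_cast; linarith
    have q2 : (-1 : ℤ) < k := by exact_mod_cast q
    omega
  have uk : k ≤ (1 : ℤ) := by
    have q : (k : ℝ) < ((2 : ℤ) : ℝ) := by push_cast; linarith
    have q2 : k < (2 : ℤ) := by exact_mod_cast q
    omega
  clear bx0 bx1 by0 by1 bz0 bz1
  obtain ⟨g1, g2, -, -, -, g6, -, -, -, -, g11, -, -, g14, -, -, g17, -, -, -, -, -, -, -, -⟩ := h
  have hi : i = 0 ∨ i = 1 := by clear h0 h1; omega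
  have hj : j = -1 ∨ j = 0 := by clear h0 h1; omega
  have hk : k = 0 ∨ k = 1 := by clear h0 h1; omega
  rcases hi with rfl | rfl <;> rcases hj with rfl | rfl <;> rcases hk with rfl | rfl
  · exfalso; push_cast at g17; linarith only [g17, h0, h1]
  · exfalso; push_cast at g11; linarith only [g11, h0, h1]
  · exact ⟨rfl, rfl, rfl⟩
  · exfalso; push_cast at g14; linarith only [g14, h0, h1]
  · exfalso; push_cast at g1; linarith only [g1, h0, h1]
  · exfalso; push_cast at g2; linarith only [g2, h0, h1]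
  · exfalso; push_cast at g1; linarith only [g1, h0, h1]
  · exfalso; push_cast at g6; linarith only [g6, h0, h1]

lemma uniq_13 (t : ℝ) (h0 : 0 < t) (h1 : t ≤ 1) (i j k : ℤ)
    (h : inK ((3 / 2) + t * (-1 / 12) - i) ((1 / 6) + t * 0 - j) (1 + t * 0 - k)) :
    i = 0 ∧ j = 0 ∧ k = 0 := by
  obtain ⟨⟨bx0, bx1⟩, ⟨by0, by1⟩, ⟨bz0, bz1⟩⟩ := inK_box h
  have li : (0 : ℤ) ≤ i := by
    have q : ((-1 : ℤ) : ℝ) < (i : ℝ) := by push_cast; linarith
    have q2 : (-1 : ℤ) < i := by exact_mod_cast q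
    omega
  have ui : i ≤ (1 : ℤ) := by
    have q : (i : ℝ) < ((2 : ℤ) : ℝ) := by push_cast; linarith
    have q2 : i < (2 : ℤ) := by exact_mod_cast q
    omega
  have lj : (-1 : ℤ) ≤ j := by
    have q : ((-2 : ℤ) : ℝ) < (j : ℝ) := by push_cast; linarith
    have q2 : (-2 : ℤ) < j := by exact_mod_cast q
    omega
  have uj : j ≤ (1 : ℤ) := by
    have q : (j : ℝ) < ((2 : ℤ) : ℝ) := by push_cast; linarith
    have q2 : j < (2 : ℤ) := by exact_mod_cast q
    omega
  have lk : (0 : ℤ) ≤ k := by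
    have q : ((-1 : ℤ) : ℝ) < (k : ℝ) := by push_cast; linarith
    have q2 : (-1 : ℤ) < k := by exact_mod_cast q
    omega
  have uk : k ≤ (1 : ℤ) := by
    have q : (k : ℝ) < ((2 : ℤ) : ℝ) := by push_cast; linarith
    have q2 : k < (2 : ℤ) := by exact_mod_cast q
    omega
  clear bx0 bx1 by0 by1 bz0 bz1
  obtain ⟨g1, g2, -, g4, -, g6, -, g8, -, -, g11, -, -, g14, -, -, g17, -, -, -, -, -, -, -, -⟩ := h
  have hi : i = 0 ∨ i = 1 := by clear h0 h1; omega
  have hj : j = -1 ∨ j = 0 ∨ j = 1 := by clear h0 h1; omega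
  have hk : k = 0 ∨ k = 1 := by clear h0 h1; omega
  rcases hi with rfl | rfl <;> rcases hj with rfl | rfl | rfl <;> rcases hk with rfl | rfl
  · exfalso; push_cast at g17; linarith only [g17, h0, h1]
  · exfalso; push_cast at g11; linarith only [g11, h0, h1]
  · exact ⟨rfl, rfl, rfl⟩
  · exfalso; push_cast at g14; linarith only [g14, h0, h1]
  · exfalso; push_cast at g4; linarith only [g4, h0, h1]
  · exfalso; push_cast at g6; linarith only [g6, h0, h1]
  · exfalso; push_cast at g2; linarith only [g2, h0, h1]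
  · exfalso; push_cast at g2; linarith only [g2, h0, h1]
  · exfalso; push_cast at g1; linarith only [g1, h0, h1]
  · exfalso; push_cast at g8; linarith only [g8, h0, h1]
  · exfalso; push_cast at g1; linarith only [g1, h0, h1]
  · exfalso; push_cast at g4; linarith only [g4, h0, h1]

lemma uniq_14 (t : ℝ) (h0 : 0 < t) (h1 : t ≤ 1) (i j k : ℤ)
    (h : inK ((5 / 3) + t * 0 - i) (1 + t * (-1 / 12) - j) (0 + t * (1 / 12) - k)) :
    i = 0 ∧ j = 0 ∧ k = 0 := by
  obtain ⟨⟨bx0, bx1⟩, ⟨by0, by1⟩, ⟨bz0, bz1⟩⟩ := inK_box h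
  have li : (0 : ℤ) ≤ i := by
    have q : ((-1 : ℤ) : ℝ) < (i : ℝ) := by push_cast; linarith
    have q2 : (-1 : ℤ) < i := by exact_mod_cast q
    omega
  have ui : i ≤ (1 : ℤ) := by
    have q : (i : ℝ) < ((2 : ℤ) : ℝ) := by push_cast; linarith
    have q2 : i < (2 : ℤ) := by exact_mod_cast q
    omega
  have lj : (0 : ℤ) ≤ j := by
    have q : ((-1 : ℤ) : ℝ) < (j : ℝ) := by push_cast; linarith
    have q2 : (-1 : ℤ) < j := by exact_mod_cast q
    omega
  have uj : j ≤ (1 : ℤ) := by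
    have q : (j : ℝ) < ((2 : ℤ) : ℝ) := by push_cast; linarith
    have q2 : j < (2 : ℤ) := by exact_mod_cast q
    omega
  have lk : (-1 : ℤ) ≤ k := by
    have q : ((-2 : ℤ) : ℝ) < (k : ℝ) := by push_cast; linarith
    have q2 : (-2 : ℤ) < k := by exact_mod_cast q
    omega
  have uk : k ≤ (0 : ℤ) := by
    have q : (k : ℝ) < ((1 : ℤ) : ℝ) := by push_cast; linarith
    have q2 : k < (1 : ℤ) := by exact_mod_cast q
    omega
  clear bx0 bx1 by0 by1 bz0 bz1
  obtain ⟨-, g2, -, g4, -, g6, -, -, -, -, -, -, -, g14, -, -, g17, -, -, -, -, -, -, -, -⟩ := h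
  have hi : i = 0 ∨ i = 1 := by clear h0 h1; omega
  have hj : j = 0 ∨ j = 1 := by clear h0 h1; omega
  have hk : k = -1 ∨ k = 0 := by clear h0 h1; omega
  rcases hi with rfl | rfl <;> rcases hj with rfl | rfl <;> rcases hk with rfl | rfl
  · exfalso; push_cast at g17; linarith only [g17, h0, h1]
  · exact ⟨rfl, rfl, rfl⟩
  · exfalso; push_cast at g17; linarith only [g17, h0, h1]
  · exfalso; push_cast at g14; linarith only [g14, h0, h1]
  · exfalso; push_cast at g17; linarith only [g17, h0, h1]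
  · exfalso; push_cast at g2; linarith only [g2, h0, h1]
  · exfalso; push_cast at g4; linarith only [g4, h0, h1]
  · exfalso; push_cast at g6; linarith only [g6, h0, h1]

lemma uniq_15 (t : ℝ) (h0 : 0 < t) (h1 : t ≤ 1) (i j k : ℤ)
    (h : inK ((11 / 6) + t * (-1 / 12) - i) ((5 / 6) + t * 0 - j) (0 + t * (1 / 12) - k)) :
    i = 0 ∧ j = 0 ∧ k = 0 := by
  obtain ⟨⟨bx0, bx1⟩, ⟨by0, by1⟩, ⟨bz0, bz1⟩⟩ := inK_box h
  have li : (0 : ℤ) ≤ i := by
    have q : ((-1 : ℤ) : ℝ) < (i : ℝ) := by push_cast; linarith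
    have q2 : (-1 : ℤ) < i := by exact_mod_cast q
    omega
  have ui : i ≤ (1 : ℤ) := by
    have q : (i : ℝ) < ((2 : ℤ) : ℝ) := by push_cast; linarith
    have q2 : i < (2 : ℤ) := by exact_mod_cast q
    omega
  have lj : (0 : ℤ) ≤ j := by
    have q : ((-1 : ℤ) : ℝ) < (j : ℝ) := by push_cast; linarith
    have q2 : (-1 : ℤ) < j := by exact_mod_cast q
    omega
  have uj : j ≤ (1 : ℤ) := by
    have q : (j : ℝ) < ((2 : ℤ) : ℝ) := by push_cast; linarith
    have q2 : j < (2 : ℤ) := by exact_mod_cast q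
    omega
  have lk : (-1 : ℤ) ≤ k := by
    have q : ((-2 : ℤ) : ℝ) < (k : ℝ) := by push_cast; linarith
    have q2 : (-2 : ℤ) < k := by exact_mod_cast q
    omega
  have uk : k ≤ (0 : ℤ) := by
    have q : (k : ℝ) < ((1 : ℤ) : ℝ) := by push_cast; linarith
    have q2 : k < (1 : ℤ) := by exact_mod_cast q
    omega
  clear bx0 bx1 by0 by1 bz0 bz1
  obtain ⟨-, -, -, g4, -, g6, g7, -, -, -, -, -, -, g14, -, -, g17, -, -, -, -, -, -, -, -⟩ := h
  have hi : i = 0 ∨ i = 1 := by clear h0 h1; omega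
  have hj : j = 0 ∨ j = 1 := by clear h0 h1; omega
  have hk : k = -1 ∨ k = 0 := by clear h0 h1; omega
  rcases hi with rfl | rfl <;> rcases hj with rfl | rfl <;> rcases hk with rfl | rfl
  · exfalso; push_cast at g17; linarith only [g17, h0, h1]
  · exact ⟨rfl, rfl, rfl⟩
  · exfalso; push_cast at g17; linarith only [g17, h0, h1]
  · exfalso; push_cast at g14; linarith only [g14, h0, h1]
  · exfalso; push_cast at g17; linarith only [g17, h0, h1]
  · exfalso; push_cast at g7; linarith only [g7, h0, h1]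
  · exfalso; push_cast at g4; linarith only [g4, h0, h1]
  · exfalso; push_cast at g6; linarith only [g6, h0, h1]

lemma uniq_16 (t : ℝ) (h0 : 0 < t) (h1 : t ≤ 1) (i j k : ℤ)
    (h : inK (2 + t * (-1 / 6) - i) (1 + t * (-1 / 12) - j) ((1 / 8) + t * 0 - k)) :
    i = 0 ∧ j = 0 ∧ k = 0 := by
  obtain ⟨⟨bx0, bx1⟩, ⟨by0, by1⟩, ⟨bz0, bz1⟩⟩ := inK_box h
  have li : (0 : ℤ) ≤ i := by
    have q : ((-1 : ℤ) : ℝ) < (i : ℝ) := by push_cast; linarith
    have q2 : (-1 : ℤ) < i := by exact_mod_cast q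
    omega
  have ui : i ≤ (2 : ℤ) := by
    have q : (i : ℝ) < ((3 : ℤ) : ℝ) := by push_cast; linarith
    have q2 : i < (3 : ℤ) := by exact_mod_cast q
    omega
  have lj : (0 : ℤ) ≤ j := by
    have q : ((-1 : ℤ) : ℝ) < (j : ℝ) := by push_cast; linarith
    have q2 : (-1 : ℤ) < j := by exact_mod_cast q
    omega
  have uj : j ≤ (1 : ℤ) := by
    have q : (j : ℝ) < ((2 : ℤ) : ℝ) := by push_cast; linarith
    have q2 : j < (2 : ℤ) := by exact_mod_cast q
    omega
  have lk : (-1 : ℤ) ≤ k := by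
    have q : ((-2 : ℤ) : ℝ) < (k : ℝ) := by push_cast; linarith
    have q2 : (-2 : ℤ) < k := by exact_mod_cast q
    omega
  have uk : k ≤ (0 : ℤ) := by
    have q : (k : ℝ) < ((1 : ℤ) : ℝ) := by push_cast; linarith
    have q2 : k < (1 : ℤ) := by exact_mod_cast q
    omega
  clear bx0 bx1 by0 by1 bz0 bz1
  obtain ⟨g1, g2, -, -, g5, -, g7, -, -, -, -, -, -, g14, -, -, g17, -, g19, -, -, -, -, -, -⟩ := h
  have hi : i = 0 ∨ i = 1 ∨ i = 2 := by clear h0 h1; omega
  have hj : j = 0 ∨ j = 1 := by clear h0 h1; omega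
  have hk : k = -1 ∨ k = 0 := by clear h0 h1; omega
  rcases hi with rfl | rfl | rfl <;> rcases hj with rfl | rfl <;> rcases hk with rfl | rfl
  · exfalso; push_cast at g17; linarith only [g17, h0, h1]
  · exact ⟨rfl, rfl, rfl⟩
  · exfalso; push_cast at g17; linarith only [g17, h0, h1]
  · exfalso; push_cast at g14; linarith only [g14, h0, h1]
  · exfalso; push_cast at g17; linarith only [g17, h0, h1]
  · exfalso; push_cast at g7; linarith only [g7, h0, h1]
  · exfalso; push_cast at g5; linarith only [g5, h0, h1]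
  · exfalso; push_cast at g19; linarith only [g19, h0, h1]
  · exfalso; push_cast at g1; linarith only [g1, h0, h1]
  · exfalso; push_cast at g2; linarith only [g2, h0, h1]
  · exfalso; push_cast at g1; linarith only [g1, h0, h1]
  · exfalso; push_cast at g1; linarith only [g1, h0, h1]

end Pool.Agent.CoveringBody
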